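import Pool.Agent.H89.ZCL.See

/-!
# Change of box: positions in two nested boxes

The box of the window `w0`, in the plank coordinates of a frame `z0` of precision `lam0`, and the
box of the shorter window `w0 + x`, in the plank coordinates of a frame `za` of the higher
precision `lam0 + be`. Differences of positions of two samples with the same labels of the boxes.
-/

set_option autoImplicit false

namespace Pool.BOX

open Finset Real
open Pool.Agent.H49.Ent Pool.Agent.H32.Dense Pool.STK Pool.KA Pool.KSAT Pool.K2S Pool.PB Pool.ZCL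

variable {m J : ℕ}

/-- The main factor of the change of coordinates. -/
noncomputable def sS (x be : ℕ) (i0 i : Fin m) : ℝ := if i = i0 then 2 ^ x else 2 ^ (x + be)

/-- The factor of the chart coordinate. -/
noncomputable def sE (x lam0 be : ℕ) (i0 : Fin m) (z0 za : Fin m → ℝ) (i : Fin m) : ℝ :=
  if i = i0 then 0 else 2 ^ (x + lam0 + be) * (z0 i - za i)

theorem sS_pos (x be : ℕ) (i0 i : Fin m) : 0 < sS x be i0 i := by
  unfold sS
  split_ifs <;> positivity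

theorem sS_le (x be : ℕ) (i0 i : Fin m) : sS x be i0 i ≤ 2 ^ (x + be) := by
  unfold sS
  split_ifs
  · exact pow_le_pow_right₀ (by norm_num) (by omega)
  · exact le_rfl

theorem sE_le {x lam0 be : ℕ} {i0 : Fin m} {z0 za : Fin m → ℝ} {b' : ℝ} (hb : 0 ≤ b')
    (h : ∀ i, |z0 i - za i| ≤ b' / 2 ^ lam0) (i : Fin m) :
    |sE x lam0 be i0 z0 za i| ≤ b' * 2 ^ (x + be) := by
  unfold sE
  split_ifs
  · rw [abs_zero]
    positivity
  · rw [abs_mul, abs_of_pos (by positivity)]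
    have h1 := h i
    have p0 : (0 : ℝ) < 2 ^ lam0 := by positivity
    rw [le_div_iff₀ p0] at h1
    have e1 : (2 : ℝ) ^ (x + lam0 + be) = 2 ^ lam0 * 2 ^ (x + be) := by
      rw [← pow_add]
      congr 1
      omega
    rw [e1]
    have p1 : (0 : ℝ) < 2 ^ (x + be) := by positivity
    nlinarith

/-- The change of coordinates. -/
theorem pco_rel (w0 x lam0 be : ℕ) (i0 : Fin m) (z0 za y : Fin m → ℝ) (i : Fin m) :
    2 ^ (w0 + x) * pco (lam0 + be) i0 za y i =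
      sS x be i0 i * (2 ^ w0 * pco lam0 i0 z0 y i) +
        sE x lam0 be i0 z0 za i * (2 ^ w0 * pco lam0 i0 z0 y i0) := by
  unfold pco sS sE
  by_cases h : i = i0
  · rw [if_pos h, if_pos h, if_pos h, if_pos h, if_pos rfl]
    rw [pow_add]
    ring
  · rw [if_neg h, if_neg h, if_neg h, if_neg h, if_pos rfl]
    simp only [pow_add]
    ring

/-- The labels of the two boxes of two samples are equal. -/
structure Same (F : Fam m J) (w0 x lam0 be : ℕ) (i0 : Fin m) (z0 za : F.Ω → Fin m → ℝ)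
    (ω ω' : F.Ω) : Prop where
  a : F.blab (w0 + x) (Box.plkC (lam0 + be) i0) za ω =
    F.blab (w0 + x) (Box.plkC (lam0 + be) i0) za ω'
  o : F.blab w0 (Box.plkC lam0 i0) z0 ω = F.blab w0 (Box.plkC lam0 i0) z0 ω'

/-- The velocity of the smaller box, in the coordinates of the larger one. -/
noncomputable def sA (F : Fam m J) (x lam0 be : ℕ) (i0 : Fin m) (z0 za : F.Ω → Fin m → ℝ)
    (ω : F.Ω) (i : Fin m) : ℝ :=
  sS x be i0 i * F.bvl (Box.plkC lam0 i0) z0 ω i +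
    sE x lam0 be i0 (z0 ω) (za ω) i * F.bvl (Box.plkC lam0 i0) z0 ω i0 -
      2 ^ x * F.bvl (Box.plkC (lam0 + be) i0) za ω i

/-- The velocities in the two boxes. -/
theorem box_d_rel (F : Fam m J) (w0 x lam0 be : ℕ) (i0 : Fin m) (z0 za : F.Ω → Fin m → ℝ)
    (ω : F.Ω) (i : Fin m) :
    2 ^ x * (F.box (w0 + x) (Box.plkC (lam0 + be) i0) za).d ω i =
      sS x be i0 i * (F.box w0 (Box.plkC lam0 i0) z0).d ω i +
        sE x lam0 be i0 (z0 ω) (za ω) i * (F.box w0 (Box.plkC lam0 i0) z0).d ω i0 +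
          sA F x lam0 be i0 z0 za ω i := by
  have h1 := Box.bvl_eq F (w0 + x) (Box.plkC (lam0 + be) i0) za ω i
  have h2 := Box.bvl_eq F w0 (Box.plkC lam0 i0) z0 ω i
  have h3 := Box.bvl_eq F w0 (Box.plkC lam0 i0) z0 ω i0
  have h4 := pco_rel w0 x lam0 be i0 (z0 ω) (za ω) (F.d ω) i
  have e1 : (Box.plkC (lam0 + be) i0).L (za ω) (F.d ω) i = pco (lam0 + be) i0 (za ω) (F.d ω) i :=
    rfl
  have e2 : (Box.plkC lam0 i0).L (z0 ω) (F.d ω) i = pco lam0 i0 (z0 ω) (F.d ω) i := rfl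
  have e3 : (Box.plkC lam0 i0).L (z0 ω) (F.d ω) i0 = pco lam0 i0 (z0 ω) (F.d ω) i0 := rfl
  rw [e1] at h1
  rw [e2] at h2
  rw [e3] at h3
  rw [h1, h2, h3, pow_add] at h4
  have p0 : (2 : ℝ) ^ w0 ≠ 0 := by positivity
  have h5 : (2 : ℝ) ^ w0 * (2 ^ x * (F.box (w0 + x) (Box.plkC (lam0 + be) i0) za).d ω i -
      (sS x be i0 i * (F.box w0 (Box.plkC lam0 i0) z0).d ω i +
        sE x lam0 be i0 (z0 ω) (za ω) i * (F.box w0 (Box.plkC lam0 i0) z0).d ω i0 +
          sA F x lam0 be i0 z0 za ω i)) = 0 := by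
    unfold sA
    linear_combination h4
  have h6 := (mul_eq_zero.1 h5).resolve_left p0
  linarith

theorem sA_le (F : Fam m J) (w0 x lam0 be : ℕ) (i0 : Fin m) (z0 za : F.Ω → Fin m → ℝ)
    (ω : F.Ω) (i : Fin m) {b' : ℝ} (hb : 0 ≤ b')
    (h : ∀ i, |z0 ω i - za ω i| ≤ b' / 2 ^ lam0) :
    |sA F x lam0 be i0 z0 za ω i| ≤ (2 + b') * 2 ^ (x + be) := by
  have h1 := box_d_rel F w0 x lam0 be i0 z0 za ω i
  have h2 := Box.d_mem F (w0 + x) (Box.plkC (lam0 + be) i0) za ω i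
  have h3 := Box.d_mem F w0 (Box.plkC lam0 i0) z0 ω i
  have h4 := Box.d_mem F w0 (Box.plkC lam0 i0) z0 ω i0
  have h5 := sS_pos x be i0 i
  have h6 := sS_le x be i0 i
  have h7 := sE_le (x := x) (be := be) (i0 := i0) hb h i
  have h8 : (2 : ℝ) ^ x ≤ 2 ^ (x + be) := pow_le_pow_right₀ (by norm_num) (by omega)
  obtain ⟨a, ha⟩ : ∃ a, a = (F.box (w0 + x) (Box.plkC (lam0 + be) i0) za).d ω i := ⟨_, rfl⟩
  obtain ⟨b, hb'⟩ : ∃ b, b = (F.box w0 (Box.plkC lam0 i0) z0).d ω i := ⟨_, rfl⟩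
  obtain ⟨c, hc⟩ : ∃ c, c = (F.box w0 (Box.plkC lam0 i0) z0).d ω i0 := ⟨_, rfl⟩
  rw [← ha] at h1 h2
  rw [← hb'] at h1 h3
  rw [← hc] at h1 h4
  have e1 : sA F x lam0 be i0 z0 za ω i = 2 ^ x * a - sS x be i0 i * b -
      sE x lam0 be i0 (z0 ω) (za ω) i * c := by linarith
  rw [e1]
  have p0 : (0 : ℝ) < 2 ^ x := by positivity
  have k1 : 0 ≤ 2 ^ x * a ∧ 2 ^ x * a ≤ 2 ^ (x + be) :=
    ⟨mul_nonneg p0.le h2.1, by nlinarith [h2.1, h2.2]⟩
  have k2 : 0 ≤ sS x be i0 i * b ∧ sS x be i0 i * b ≤ 2 ^ (x + be) :=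
    ⟨mul_nonneg h5.le h3.1, by nlinarith [h3.1, h3.2]⟩
  have k3 : |sE x lam0 be i0 (z0 ω) (za ω) i * c| ≤ b' * 2 ^ (x + be) := by
    rw [abs_mul, abs_of_nonneg h4.1]
    have := abs_nonneg (sE x lam0 be i0 (z0 ω) (za ω) i)
    nlinarith [h4.1, h4.2]
  rw [abs_le] at k3 ⊢
  constructor <;> linarith [k1.1, k1.2, k2.1, k2.2, k3.1, k3.2]

/-- Positions of two samples with the same labels. -/
theorem box_x_diff (F : Fam m J) {w0 x lam0 be : ℕ} (hw : w0 + x ≤ J) {i0 : Fin m}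
    {z0 za : F.Ω → Fin m → ℝ} {ω ω' : F.Ω} (hs : Same F w0 x lam0 be i0 z0 za ω ω') (i : Fin m) :
    (F.box (w0 + x) (Box.plkC (lam0 + be) i0) za).x ω i -
      (F.box (w0 + x) (Box.plkC (lam0 + be) i0) za).x ω' i =
      sS x be i0 i * ((F.box w0 (Box.plkC lam0 i0) z0).x ω i -
        (F.box w0 (Box.plkC lam0 i0) z0).x ω' i) +
      sE x lam0 be i0 (z0 ω) (za ω) i * ((F.box w0 (Box.plkC lam0 i0) z0).x ω i0 -
        (F.box w0 (Box.plkC lam0 i0) z0).x ω' i0) +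
      ((F.box w0 (Box.plkC lam0 i0) z0).t ω - (F.box w0 (Box.plkC lam0 i0) z0).t ω') *
        sA F x lam0 be i0 z0 za ω i := by
  obtain ⟨a1, a2, a3, a4, -⟩ := Box.split_lab F hs.a
  obtain ⟨b1, b2, b3, b4, -⟩ := Box.split_lab F hs.o
  have h1 := Box.box_x F hw (Box.plkC (lam0 + be) i0) za ω i
  have h1' := Box.box_x F hw (Box.plkC (lam0 + be) i0) za ω' i
  have h2 := Box.box_x F (by omega : w0 ≤ J) (Box.plkC lam0 i0) z0 ω i
  have h2' := Box.box_x F (by omega : w0 ≤ J) (Box.plkC lam0 i0) z0 ω' i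
  have h3 := Box.box_x F (by omega : w0 ≤ J) (Box.plkC lam0 i0) z0 ω i0
  have h3' := Box.box_x F (by omega : w0 ≤ J) (Box.plkC lam0 i0) z0 ω' i0
  have h4 := pco_rel w0 x lam0 be i0 (z0 ω) (za ω) (F.x ω) i
  have h4' := pco_rel w0 x lam0 be i0 (z0 ω) (za ω) (F.x ω') i
  have t1 := Box.box_t F hw (Box.plkC (lam0 + be) i0) za ω
  have t1' := Box.box_t F hw (Box.plkC (lam0 + be) i0) za ω'
  have t2 := Box.box_t F (by omega : w0 ≤ J) (Box.plkC lam0 i0) z0 ω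
  have t2' := Box.box_t F (by omega : w0 ≤ J) (Box.plkC lam0 i0) z0 ω'
  rw [← a2] at h1'
  rw [← b2] at h2' h3'
  rw [← a1] at t1'
  rw [← b1] at t2'
  have e1 : ∀ (ω₁ : F.Ω), (Box.plkC (lam0 + be) i0).L (za ω) (F.x ω₁) i =
    pco (lam0 + be) i0 (za ω) (F.x ω₁) i := fun _ => rfl
  have e2 : ∀ (ω₁ : F.Ω) (j : Fin m), (Box.plkC lam0 i0).L (z0 ω) (F.x ω₁) j =
    pco lam0 i0 (z0 ω) (F.x ω₁) j := fun _ _ => rfl
  rw [e1] at h1 h1'
  rw [e2] at h2 h2' h3 h3'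
  rw [h1, h2, h3] at h4
  rw [h1', h2', h3'] at h4'
  rw [← a3, ← a4] at h4'
  rw [← b3, ← b4] at h4'
  have ht : (F.box (w0 + x) (Box.plkC (lam0 + be) i0) za).t ω -
      (F.box (w0 + x) (Box.plkC (lam0 + be) i0) za).t ω' =
      2 ^ x * ((F.box w0 (Box.plkC lam0 i0) z0).t ω - (F.box w0 (Box.plkC lam0 i0) z0).t ω') := by
    have k1 : (2 : ℝ) ^ (w0 + x) * (F.t ω - F.t ω') =
        (F.box (w0 + x) (Box.plkC (lam0 + be) i0) za).t ω -
          (F.box (w0 + x) (Box.plkC (lam0 + be) i0) za).t ω' := by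
      rw [t1, t1']
      field_simp
      ring
    have k2 : (2 : ℝ) ^ (w0 + x) * (F.t ω - F.t ω') =
        2 ^ x * ((F.box w0 (Box.plkC lam0 i0) z0).t ω -
          (F.box w0 (Box.plkC lam0 i0) z0).t ω') := by
      rw [t2, t2', pow_add]
      field_simp
      ring
    rw [← k1, k2]
  unfold sA
  linear_combination h4 - h4' - (F.bvl (Box.plkC (lam0 + be) i0) za ω i : ℝ) * ht

/-- Velocities of two samples with the same labels. -/
theorem box_d_diff (F : Fam m J) {w0 x lam0 be : ℕ} {i0 : Fin m}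
    {z0 za : F.Ω → Fin m → ℝ} {ω ω' : F.Ω} (hs : Same F w0 x lam0 be i0 z0 za ω ω') (i : Fin m) :
    2 ^ x * ((F.box (w0 + x) (Box.plkC (lam0 + be) i0) za).d ω i -
      (F.box (w0 + x) (Box.plkC (lam0 + be) i0) za).d ω' i) =
      sS x be i0 i * ((F.box w0 (Box.plkC lam0 i0) z0).d ω i -
        (F.box w0 (Box.plkC lam0 i0) z0).d ω' i) +
      sE x lam0 be i0 (z0 ω) (za ω) i * ((F.box w0 (Box.plkC lam0 i0) z0).d ω i0 -
        (F.box w0 (Box.plkC lam0 i0) z0).d ω' i0) := by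
  obtain ⟨a1, a2, a3, a4, -⟩ := Box.split_lab F hs.a
  obtain ⟨b1, b2, b3, b4, -⟩ := Box.split_lab F hs.o
  have h1 := box_d_rel F w0 x lam0 be i0 z0 za ω i
  have h2 := box_d_rel F w0 x lam0 be i0 z0 za ω' i
  have e1 : sA F x lam0 be i0 z0 za ω' i = sA F x lam0 be i0 z0 za ω i := by
    unfold sA
    rw [a2, a4, b2, b4]
  rw [e1, ← a2, ← b2] at h2
  linear_combination h1 - h2

end Pool.BOX
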