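import Pool.Agent.H19.BOX.Alg

/-!
# Change of box: points and lines of the zooms
-/

set_option autoImplicit false

namespace Pool.BOX

open Finset Real
open Pool.Agent.H49.Ent Pool.Agent.H32.Dense Pool.STK Pool.KA Pool.KSAT Pool.K2S Pool.PB Pool.ZCL

variable {m J : ℕ}

/-- The beginning of the smaller window in the larger one. -/
theorem tau_mem (F : Fam m J) {w0 x : ℕ} (hw : w0 + x ≤ J) (ω : F.Ω) :
    0 ≤ 2 ^ w0 * ((F.T1 (w0 + x) ω : ℝ) / 2 ^ (w0 + x) - (F.T1 w0 ω : ℝ) / 2 ^ w0) ∧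
      2 ^ w0 * ((F.T1 (w0 + x) ω : ℝ) / 2 ^ (w0 + x) - (F.T1 w0 ω : ℝ) / 2 ^ w0) ≤ 1 := by
  have h1 := Pool.KSAT.T1_div F hw ω
  have h2 := Nat.div_add_mod (F.T1 (w0 + x) ω) (2 ^ x)
  rw [← h1] at h2
  have h3 := Nat.mod_lt (F.T1 (w0 + x) ω) (by positivity : 0 < 2 ^ x)
  obtain ⟨r, hr⟩ : ∃ r, r = F.T1 (w0 + x) ω % 2 ^ x := ⟨_, rfl⟩
  rw [← hr] at h2 h3
  have h4 : (F.T1 (w0 + x) ω : ℝ) = 2 ^ x * F.T1 w0 ω + r := by
    rw [← h2]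
    push_cast
    ring
  have e1 : (2 : ℝ) ^ w0 * ((F.T1 (w0 + x) ω : ℝ) / 2 ^ (w0 + x) - (F.T1 w0 ω : ℝ) / 2 ^ w0) =
      r / 2 ^ x := by
    rw [h4, pow_add]
    field_simp
    ring
  rw [e1]
  have h5 : (r : ℝ) ≤ 2 ^ x := by exact_mod_cast h3.le
  exact ⟨by positivity, by rw [div_le_one (by positivity)]; exact h5⟩

/-- Positions at the beginning of the window, of two samples with the same labels. -/
theorem box_u_diff (F : Fam m J) {w0 x lam0 be : ℕ} {i0 : Fin m}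
    {z0 za : F.Ω → Fin m → ℝ} {ω ω' : F.Ω} (hs : Same F w0 x lam0 be i0 z0 za ω ω') (i : Fin m)
    {τ : ℝ} (hτ : τ = 2 ^ w0 * ((F.T1 (w0 + x) ω : ℝ) / 2 ^ (w0 + x) -
      (F.T1 w0 ω : ℝ) / 2 ^ w0)) :
    (F.box (w0 + x) (Box.plkC (lam0 + be) i0) za).u ω i -
      (F.box (w0 + x) (Box.plkC (lam0 + be) i0) za).u ω' i =
      sS x be i0 i * (((F.box w0 (Box.plkC lam0 i0) z0).u ω i -
        (F.box w0 (Box.plkC lam0 i0) z0).u ω' i) +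
        τ * ((F.box w0 (Box.plkC lam0 i0) z0).d ω i -
        (F.box w0 (Box.plkC lam0 i0) z0).d ω' i)) +
      sE x lam0 be i0 (z0 ω) (za ω) i * (((F.box w0 (Box.plkC lam0 i0) z0).u ω i0 -
        (F.box w0 (Box.plkC lam0 i0) z0).u ω' i0) +
        τ * ((F.box w0 (Box.plkC lam0 i0) z0).d ω i0 -
        (F.box w0 (Box.plkC lam0 i0) z0).d ω' i0)) := by
  obtain ⟨a1, a2, a3, a4, -⟩ := Box.split_lab F hs.a
  obtain ⟨b1, b2, b3, b4, -⟩ := Box.split_lab F hs.o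
  have key : ∀ ω₁ : F.Ω, F.T1 (w0 + x) ω₁ = F.T1 (w0 + x) ω → F.T1 w0 ω₁ = F.T1 w0 ω →
      za ω₁ = za ω → z0 ω₁ = z0 ω →
      (F.box (w0 + x) (Box.plkC (lam0 + be) i0) za).u ω₁ i +
        F.bcl (w0 + x) (Box.plkC (lam0 + be) i0) za ω₁ i =
      sS x be i0 i * ((F.bcl w0 (Box.plkC lam0 i0) z0 ω₁ i +
        (F.box w0 (Box.plkC lam0 i0) z0).u ω₁ i) +
        τ * (F.bvl (Box.plkC lam0 i0) z0 ω₁ i + (F.box w0 (Box.plkC lam0 i0) z0).d ω₁ i)) +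
      sE x lam0 be i0 (z0 ω) (za ω) i * ((F.bcl w0 (Box.plkC lam0 i0) z0 ω₁ i0 +
        (F.box w0 (Box.plkC lam0 i0) z0).u ω₁ i0) +
        τ * (F.bvl (Box.plkC lam0 i0) z0 ω₁ i0 +
          (F.box w0 (Box.plkC lam0 i0) z0).d ω₁ i0)) := by
    intro ω₁ e1 e2 e3 e4
    have h1 := Box.bcl_eq F (w0 + x) (Box.plkC (lam0 + be) i0) za ω₁ i
    have h2 := Box.bcl_eq F w0 (Box.plkC lam0 i0) z0 ω₁ i
    have h3 := Box.bcl_eq F w0 (Box.plkC lam0 i0) z0 ω₁ i0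
    have h4 := Box.bvl_eq F w0 (Box.plkC lam0 i0) z0 ω₁ i
    have h5 := Box.bvl_eq F w0 (Box.plkC lam0 i0) z0 ω₁ i0
    have h6 := pco_rel w0 x lam0 be i0 (z0 ω₁) (za ω₁) (F.x1 (w0 + x) ω₁) i
    have hx : F.x1 (w0 + x) ω₁ = fun j => F.x1 w0 ω₁ j + (τ / 2 ^ w0) * F.d ω₁ j := by
      funext j
      unfold Fam.x1
      rw [hτ, e1, e2]
      have p0 : (2 : ℝ) ^ w0 ≠ 0 := by positivity
      field_simp
      ring
    have h7 : ∀ j, 2 ^ w0 * pco lam0 i0 (z0 ω₁) (F.x1 (w0 + x) ω₁) j =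
        2 ^ w0 * (Box.plkC lam0 i0).L (z0 ω₁) (F.x1 w0 ω₁) j +
          τ * (Box.plkC lam0 i0).L (z0 ω₁) (F.d ω₁) j := by
      intro j
      rw [hx, Plk.pco_add_mul]
      change _ = 2 ^ w0 * pco lam0 i0 (z0 ω₁) (F.x1 w0 ω₁) j + τ * pco lam0 i0 (z0 ω₁) (F.d ω₁) j
      have p0 : (2 : ℝ) ^ w0 ≠ 0 := by positivity
      field_simp
    have h8 : 2 ^ (w0 + x) * (Box.plkC (lam0 + be) i0).L (za ω₁) (F.x1 (w0 + x) ω₁) i =
        2 ^ (w0 + x) * pco (lam0 + be) i0 (za ω₁) (F.x1 (w0 + x) ω₁) i := rfl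
    rw [h7 i, h7 i0, h2, h3, h4, h5] at h6
    rw [h8, h6] at h1
    rw [← e3, ← e4]
    linarith
  have k1 := key ω rfl rfl rfl rfl
  have k2 := key ω' a1.symm b1.symm a2.symm b2.symm
  rw [← a3, ← b3, ← b4] at k2
  linear_combination k1 - k2

/-- Size of an affine combination. -/
theorem comb_le {S E b' s a b p q : ℝ} (hS : 0 < S) (hSs : S ≤ s) (hE : |E| ≤ b' * s)
    (ha : |a| ≤ p) (hb : |b| ≤ q) : |S * a + E * b| ≤ s * (p + b' * q) := by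
  have h1 : |S * a| ≤ s * p := by
    rw [abs_mul, abs_of_pos hS]
    exact mul_le_mul hSs ha (abs_nonneg _) (hS.le.trans hSs)
  have h2 : |E * b| ≤ b' * s * q := by
    rw [abs_mul]
    exact mul_le_mul hE hb (abs_nonneg _) ((abs_nonneg _).trans hE)
  calc |S * a + E * b| ≤ |S * a| + |E * b| := abs_add_le _ _
    _ ≤ s * p + b' * s * q := add_le_add h1 h2
    _ = _ := by ring

/-- **Points of the zooms**: two samples with the same labels and nearly the same position in the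
larger box have nearly the same position in the smaller box. -/
theorem zm_x_diff (F : Fam m J) {w0 x lam0 be J0 Ja ra r0 : ℕ} {i0 : Fin m}
    {z0 za : F.Ω → Fin m → ℝ} (h0 : w0 + J0 ≤ J) (ha : w0 + x + Ja ≤ J) {b' : ℝ} (hb : 0 ≤ b')
    (hr0 : r0 ≤ J0) (hra : ra ≤ Ja) (hr : ra + x + be ≤ r0) {ω ω' : F.Ω}
    (hz : ∀ i, |z0 ω i - za ω i| ≤ b' / 2 ^ lam0)
    (hs : Same F w0 x lam0 be i0 z0 za ω ω')
    (hX : (F.zm w0 J0 h0 (Box.plkC lam0 i0) z0).X r0 ω =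
      (F.zm w0 J0 h0 (Box.plkC lam0 i0) z0).X r0 ω')
    (hT : (F.zm w0 J0 h0 (Box.plkC lam0 i0) z0).T ω =
      (F.zm w0 J0 h0 (Box.plkC lam0 i0) z0).T ω') (i : Fin m) :
    |(F.zm (w0 + x) Ja ha (Box.plkC (lam0 + be) i0) za).x ω i -
      (F.zm (w0 + x) Ja ha (Box.plkC (lam0 + be) i0) za).x ω' i| ≤ (15 + 8 * b') / 2 ^ ra := by
  have hw : w0 + x ≤ J := by omega
  have pr : (0 : ℝ) < 2 ^ ra := by positivity
  have pr0 : (0 : ℝ) < 2 ^ r0 := by positivity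
  have i1 : (1 : ℝ) / 2 ^ J0 ≤ 1 / 2 ^ r0 := inv_mono hr0
  have i2 : (1 : ℝ) / 2 ^ Ja ≤ 1 / 2 ^ ra := inv_mono hra
  -- the zooms and the boxes
  have n0 : ∀ (ω₁ : F.Ω) (j : Fin m), |(F.zm w0 J0 h0 (Box.plkC lam0 i0) z0).x ω₁ j -
      (F.box w0 (Box.plkC lam0 i0) z0).x ω₁ j| ≤ 3 / 2 ^ J0 := by
    intro ω₁ j
    have h1 := zm_x F h0 (Box.plkC lam0 i0) z0 ω₁ j
    have h2 := Box.box_x F (by omega : w0 ≤ J) (Box.plkC lam0 i0) z0 ω₁ j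
    have e1 : 2 ^ w0 * (Box.plkC lam0 i0).L (z0 ω₁) (F.x ω₁) j -
      F.bcl w0 (Box.plkC lam0 i0) z0 ω₁ j - (F.box w0 (Box.plkC lam0 i0) z0).t ω₁ *
        F.bvl (Box.plkC lam0 i0) z0 ω₁ j = (F.box w0 (Box.plkC lam0 i0) z0).x ω₁ j := by
      linarith
    rwa [e1] at h1
  have na : ∀ (ω₁ : F.Ω) (j : Fin m), |(F.zm (w0 + x) Ja ha (Box.plkC (lam0 + be) i0) za).x ω₁ j -
      (F.box (w0 + x) (Box.plkC (lam0 + be) i0) za).x ω₁ j| ≤ 3 / 2 ^ Ja := by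
    intro ω₁ j
    have h1 := zm_x F ha (Box.plkC (lam0 + be) i0) za ω₁ j
    have h2 := Box.box_x F hw (Box.plkC (lam0 + be) i0) za ω₁ j
    have e1 : 2 ^ (w0 + x) * (Box.plkC (lam0 + be) i0).L (za ω₁) (F.x ω₁) j -
      F.bcl (w0 + x) (Box.plkC (lam0 + be) i0) za ω₁ j -
        (F.box (w0 + x) (Box.plkC (lam0 + be) i0) za).t ω₁ *
        F.bvl (Box.plkC (lam0 + be) i0) za ω₁ j =
          (F.box (w0 + x) (Box.plkC (lam0 + be) i0) za).x ω₁ j := by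
      linarith
    rwa [e1] at h1
  -- the positions in the larger box
  have d0 : ∀ j : Fin m, |(F.box w0 (Box.plkC lam0 i0) z0).x ω j -
      (F.box w0 (Box.plkC lam0 i0) z0).x ω' j| ≤ 7 / 2 ^ r0 := by
    intro j
    have g := Plk.abs_sub_lt_of_floor (congrFun hX j)
    rw [← mul_sub, abs_mul, abs_of_pos pr0] at g
    have g1 : |(F.zm w0 J0 h0 (Box.plkC lam0 i0) z0).x ω j -
      (F.zm w0 J0 h0 (Box.plkC lam0 i0) z0).x ω' j| ≤ 1 / 2 ^ r0 := by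
      rw [le_div_iff₀ pr0]
      linarith
    have c1 := n0 ω j
    have c2 := n0 ω' j
    have e3 : (3 : ℝ) / 2 ^ J0 = 3 * (1 / 2 ^ J0) := by ring
    have e7 : (7 : ℝ) / 2 ^ r0 = 3 * (1 / 2 ^ r0) + 1 / 2 ^ r0 + 3 * (1 / 2 ^ r0) := by ring
    rw [e3] at c1 c2
    rw [e7]
    rw [abs_le] at c1 c2 g1 ⊢
    constructor <;> linarith [c1.1, c1.2, c2.1, c2.2, g1.1, g1.2]
  -- the times
  have dt : |(F.box w0 (Box.plkC lam0 i0) z0).t ω - (F.box w0 (Box.plkC lam0 i0) z0).t ω'| ≤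
      1 / 2 ^ r0 := by
    have k : ∀ ω₁ : F.Ω, 0 ≤ 2 ^ J0 * (F.box w0 (Box.plkC lam0 i0) z0).t ω₁ -
        (F.zm w0 J0 h0 (Box.plkC lam0 i0) z0).T ω₁ ∧
        2 ^ J0 * (F.box w0 (Box.plkC lam0 i0) z0).t ω₁ -
        (F.zm w0 J0 h0 (Box.plkC lam0 i0) z0).T ω₁ < 1 := fun ω₁ =>
      Pool.KSAT.T1_real (F.box w0 (Box.plkC lam0 i0) z0) (g := J0) (by omega) ω₁
    have k1 := k ω
    have k2 := k ω'
    rw [← hT] at k2
    refine le_trans ?_ i1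
    have pJ : (0 : ℝ) < 2 ^ J0 := by positivity
    rw [le_div_iff₀ pJ, mul_comm, ← abs_of_pos pJ, ← abs_mul, mul_sub, abs_le]
    constructor <;> linarith [k1.1, k1.2, k2.1, k2.2]
  have hA := sA_le F w0 x lam0 be i0 z0 za ω i hb hz
  have hE := sE_le (x := x) (be := be) (i0 := i0) hb hz i
  have hd := box_x_diff F hw hs i
  have c := comb_le (sS_pos x be i0 i) (sS_le x be i0 i) hE (d0 i) (d0 i0)
  have ct : |((F.box w0 (Box.plkC lam0 i0) z0).t ω - (F.box w0 (Box.plkC lam0 i0) z0).t ω') *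
        sA F x lam0 be i0 z0 za ω i| ≤ 1 / 2 ^ r0 * ((2 + b') * 2 ^ (x + be)) := by
    rw [abs_mul]
    exact mul_le_mul dt hA (abs_nonneg _) (by positivity)
  have hsc : (2 : ℝ) ^ (x + be) * (1 / 2 ^ r0) ≤ 1 / 2 ^ ra := by
    rw [mul_one_div, div_le_div_iff₀ pr0 pr, one_mul, ← pow_add]
    exact pow_le_pow_right₀ (by norm_num) (by omega)
  have hbox : |(F.box (w0 + x) (Box.plkC (lam0 + be) i0) za).x ω i -
      (F.box (w0 + x) (Box.plkC (lam0 + be) i0) za).x ω' i| ≤ (9 + 8 * b') / 2 ^ ra := by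
    rw [hd]
    refine (abs_add_le _ _).trans ((add_le_add c ct).trans ?_)
    have e1 : (2 : ℝ) ^ (x + be) * (7 / 2 ^ r0 + b' * (7 / 2 ^ r0)) +
        1 / 2 ^ r0 * ((2 + b') * 2 ^ (x + be)) =
        (9 + 8 * b') * (2 ^ (x + be) * (1 / 2 ^ r0)) := by ring
    rw [e1]
    calc _ ≤ (9 + 8 * b') * (1 / 2 ^ ra) := mul_le_mul_of_nonneg_left hsc (by positivity)
      _ = _ := by ring
  have c1 := na ω i
  have c2 := na ω' i
  have e3 : (3 : ℝ) / 2 ^ Ja = 3 * (1 / 2 ^ Ja) := by ring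
  have e15 : (15 + 8 * b') / 2 ^ ra = 3 * (1 / 2 ^ ra) + (9 + 8 * b') / 2 ^ ra +
    3 * (1 / 2 ^ ra) := by ring
  rw [e3] at c1 c2
  rw [e15]
  rw [abs_le] at c1 c2 hbox ⊢
  constructor <;> linarith [c1.1, c1.2, c2.1, c2.2, hbox.1, hbox.2]

/-- **Lines of the zooms.** -/
theorem zm_l_diff (F : Fam m J) {w0 x lam0 be J0 Ja : ℕ} {i0 : Fin m}
    {z0 za : F.Ω → Fin m → ℝ} (h0 : w0 + J0 ≤ J) (ha : w0 + x + Ja ≤ J) {b' : ℝ} (hb : 0 ≤ b')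
    (hJ : Ja + x + be ≤ J0) {ω ω' : F.Ω}
    (hz : ∀ i, |z0 ω i - za ω i| ≤ b' / 2 ^ lam0)
    (hs : Same F w0 x lam0 be i0 z0 za ω ω')
    (hl : (F.zm w0 J0 h0 (Box.plkC lam0 i0) z0).l ω =
      (F.zm w0 J0 h0 (Box.plkC lam0 i0) z0).l ω') (i : Fin m) :
    |(F.box (w0 + x) (Box.plkC (lam0 + be) i0) za).u ω i -
      (F.box (w0 + x) (Box.plkC (lam0 + be) i0) za).u ω' i| ≤ (2 + 2 * b') / 2 ^ Ja ∧
    |(F.box (w0 + x) (Box.plkC (lam0 + be) i0) za).d ω i -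
      (F.box (w0 + x) (Box.plkC (lam0 + be) i0) za).d ω' i| ≤ (1 + b') / 2 ^ Ja := by
  have hw : w0 + x ≤ J := by omega
  have pJ : (0 : ℝ) < 2 ^ J0 := by positivity
  have pa : (0 : ℝ) < 2 ^ Ja := by positivity
  have px : (0 : ℝ) < 2 ^ x := by positivity
  have hu : ∀ j, |(F.box w0 (Box.plkC lam0 i0) z0).u ω j -
      (F.box w0 (Box.plkC lam0 i0) z0).u ω' j| ≤ 1 / 2 ^ J0 := by
    intro j
    have h1 : (⌊(2 : ℝ) ^ J0 * (F.box w0 (Box.plkC lam0 i0) z0).u ω j⌋ : ℝ) / 2 ^ J0 =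
        (⌊(2 : ℝ) ^ J0 * (F.box w0 (Box.plkC lam0 i0) z0).u ω' j⌋ : ℝ) / 2 ^ J0 :=
      congrFun (Prod.ext_iff.1 hl).1 j
    have h2 : ⌊(2 : ℝ) ^ J0 * (F.box w0 (Box.plkC lam0 i0) z0).u ω j⌋ =
        ⌊(2 : ℝ) ^ J0 * (F.box w0 (Box.plkC lam0 i0) z0).u ω' j⌋ := by
      have h3 := (div_left_inj' pJ.ne').1 h1
      exact_mod_cast h3
    have g := Plk.abs_sub_lt_of_floor h2
    rw [← mul_sub, abs_mul, abs_of_pos pJ] at g
    rw [le_div_iff₀ pJ]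
    linarith
  have hd : ∀ j, |(F.box w0 (Box.plkC lam0 i0) z0).d ω j -
      (F.box w0 (Box.plkC lam0 i0) z0).d ω' j| ≤ 1 / 2 ^ J0 := by
    intro j
    have h1 : (⌊(2 : ℝ) ^ J0 * (F.box w0 (Box.plkC lam0 i0) z0).d ω j⌋ : ℝ) / 2 ^ J0 =
        (⌊(2 : ℝ) ^ J0 * (F.box w0 (Box.plkC lam0 i0) z0).d ω' j⌋ : ℝ) / 2 ^ J0 :=
      congrFun (Prod.ext_iff.1 hl).2 j
    have h2 : ⌊(2 : ℝ) ^ J0 * (F.box w0 (Box.plkC lam0 i0) z0).d ω j⌋ =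
        ⌊(2 : ℝ) ^ J0 * (F.box w0 (Box.plkC lam0 i0) z0).d ω' j⌋ := by
      have h3 := (div_left_inj' pJ.ne').1 h1
      exact_mod_cast h3
    have g := Plk.abs_sub_lt_of_floor h2
    rw [← mul_sub, abs_mul, abs_of_pos pJ] at g
    rw [le_div_iff₀ pJ]
    linarith
  obtain ⟨τ, hτ⟩ : ∃ τ, τ = 2 ^ w0 * ((F.T1 (w0 + x) ω : ℝ) / 2 ^ (w0 + x) -
      (F.T1 w0 ω : ℝ) / 2 ^ w0) := ⟨_, rfl⟩
  have ht := tau_mem F hw ω
  rw [← hτ] at ht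
  have hE := sE_le (x := x) (be := be) (i0 := i0) hb hz i
  have hsc : (2 : ℝ) ^ (x + be) * (1 / 2 ^ J0) ≤ 1 / 2 ^ Ja := by
    rw [mul_one_div, div_le_div_iff₀ pJ pa, one_mul, ← pow_add]
    exact pow_le_pow_right₀ (by norm_num) (by omega)
  have hud : ∀ j, |((F.box w0 (Box.plkC lam0 i0) z0).u ω j -
        (F.box w0 (Box.plkC lam0 i0) z0).u ω' j) +
        τ * ((F.box w0 (Box.plkC lam0 i0) z0).d ω j -
        (F.box w0 (Box.plkC lam0 i0) z0).d ω' j)| ≤ 2 / 2 ^ J0 := by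
    intro j
    have e2 : (2 : ℝ) / 2 ^ J0 = 1 / 2 ^ J0 + 1 * (1 / 2 ^ J0) := by ring
    rw [e2]
    refine (abs_add_le _ _).trans (add_le_add (hu j) ?_)
    rw [abs_mul, abs_of_nonneg ht.1]
    exact mul_le_mul ht.2 (hd j) (abs_nonneg _) zero_le_one
  constructor
  · rw [box_u_diff F hs i hτ]
    refine (comb_le (sS_pos x be i0 i) (sS_le x be i0 i) hE (hud i) (hud i0)).trans ?_
    have e1 : (2 : ℝ) ^ (x + be) * (2 / 2 ^ J0 + b' * (2 / 2 ^ J0)) =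
        (2 + 2 * b') * (2 ^ (x + be) * (1 / 2 ^ J0)) := by ring
    rw [e1]
    calc _ ≤ (2 + 2 * b') * (1 / 2 ^ Ja) := mul_le_mul_of_nonneg_left hsc (by positivity)
      _ = _ := by ring
  · have h1 := box_d_diff F hs i
    have h2 := comb_le (sS_pos x be i0 i) (sS_le x be i0 i) hE (hd i) (hd i0)
    rw [← h1, abs_mul, abs_of_pos px] at h2
    have h3 : |(F.box (w0 + x) (Box.plkC (lam0 + be) i0) za).d ω i -
      (F.box (w0 + x) (Box.plkC (lam0 + be) i0) za).d ω' i| ≤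
        2 ^ x * |(F.box (w0 + x) (Box.plkC (lam0 + be) i0) za).d ω i -
      (F.box (w0 + x) (Box.plkC (lam0 + be) i0) za).d ω' i| :=
      le_mul_of_one_le_left (abs_nonneg _) (one_le_pow₀ (by norm_num))
    refine h3.trans (h2.trans ?_)
    have e1 : (2 : ℝ) ^ (x + be) * (1 / 2 ^ J0 + b' * (1 / 2 ^ J0)) =
        (1 + b') * (2 ^ (x + be) * (1 / 2 ^ J0)) := by ring
    rw [e1]
    calc _ ≤ (1 + b') * (1 / 2 ^ Ja) := mul_le_mul_of_nonneg_left hsc (by positivity)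
      _ = _ := by ring

end Pool.BOX
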