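import Pool.Agent.H19.BOX.Alg2

/-!
# Change of box: entropies

The exact point and the line of the smaller box given the exact point and the line of the larger
box: only the label of the smaller box matters.
-/

set_option autoImplicit false

namespace Pool.BOX

open Finset Real
open Pool.Agent.H49.Ent Pool.Agent.H32.Dense Pool.STK Pool.KA Pool.KSAT Pool.K2S Pool.PB Pool.ZCL

variable {m J : ℕ}

/-- The times of the zooms. -/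
theorem zm_T1_det (F : Fam m J) {w0 x lam0 be J0 Ja Ka K0 : ℕ} {i0 : Fin m}
    {z0 za : F.Ω → Fin m → ℝ} (h0 : w0 + J0 ≤ J) (ha : w0 + x + Ja ≤ J) (hKa : Ka ≤ Ja)
    (hK0 : K0 ≤ J0) (hK : x + Ka ≤ K0) {ω ω' : F.Ω} (hs : Same F w0 x lam0 be i0 z0 za ω ω')
    (hT : (F.zm w0 J0 h0 (Box.plkC lam0 i0) z0).T1 K0 ω =
      (F.zm w0 J0 h0 (Box.plkC lam0 i0) z0).T1 K0 ω') :
    (F.zm (w0 + x) Ja ha (Box.plkC (lam0 + be) i0) za).T1 Ka ω =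
      (F.zm (w0 + x) Ja ha (Box.plkC (lam0 + be) i0) za).T1 Ka ω' := by
  obtain ⟨a1, -⟩ := Box.split_lab F hs.a
  obtain ⟨b1, -⟩ := Box.split_lab F hs.o
  have g : ∀ {κ : Type} {w J' K : ℕ} (h : w + J' ≤ J) (hK : K ≤ J') (C : Crd m κ) (f : F.Ω → κ)
      (ω₁ : F.Ω), (F.zm w J' h C f).T1 K ω₁ = (F.box w C f).T1 K ω₁ := by
    intro κ w J' K h hK C f ω₁
    have h1 : (F.zm w J' h C f).T1 K ω₁ = (F.box w C f).T1 J' ω₁ / 2 ^ (J' - K) := rfl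
    obtain ⟨k, hk⟩ := Nat.exists_eq_add_of_le hK
    subst hk
    rw [h1, Nat.add_sub_cancel_left]
    exact (Pool.KSAT.T1_div (F.box w C f) (w := K) (K := k) (by omega) ω₁).symm
  rw [g ha hKa, g ha hKa]
  rw [g h0 hK0, g h0 hK0] at hT
  have c1 := Box.T1_box F (w := w0) (K := K0) (by omega) (Box.plkC lam0 i0) z0 ω
  have c2 := Box.T1_box F (w := w0) (K := K0) (by omega) (Box.plkC lam0 i0) z0 ω'
  rw [← b1, ← hT, ← c1] at c2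
  have d1 := Box.T1_box F (w := w0 + x) (K := Ka) (by omega) (Box.plkC (lam0 + be) i0) za ω
  have d2 := Box.T1_box F (w := w0 + x) (K := Ka) (by omega) (Box.plkC (lam0 + be) i0) za ω'
  obtain ⟨k, hk⟩ := Nat.exists_eq_add_of_le hK
  have e1 : w0 + K0 = (w0 + x + Ka) + k := by omega
  have f1 := Pool.KSAT.T1_div F (w := w0 + x + Ka) (K := k) (by omega) ω
  have f2 := Pool.KSAT.T1_div F (w := w0 + x + Ka) (K := k) (by omega) ω'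
  rw [← e1] at f1 f2
  rw [c2, ← f1] at f2
  rw [f2, d1, ← a1] at d2
  omega

/-- **The exact point of the smaller box.** -/
theorem CH_pt (F : Fam m J) {w0 x lam0 be J0 Ja ra r0 : ℕ} {i0 : Fin m}
    {z0 za : F.Ω → Fin m → ℝ} (h0 : w0 + J0 ≤ J) (ha : w0 + x + Ja ≤ J) {b' : ℕ}
    (hr0 : r0 ≤ J0) (hra : ra ≤ Ja) (hr : ra + x + be ≤ r0) (hJ : Ja + x ≤ J0)
    {q : F.Ω → ℝ} (hq : IsLaw q) (hz : ∀ ω, 0 < q ω → ∀ i, |z0 ω i - za ω i| ≤ b' / 2 ^ lam0) :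
    CH q (ptr (F.zm (w0 + x) Ja ha (Box.plkC (lam0 + be) i0) za) ra)
      (ptr (F.zm w0 J0 h0 (Box.plkC lam0 i0) z0) r0) ≤
      CH q (F.blab (w0 + x) (Box.plkC (lam0 + be) i0) za)
        (ptr (F.zm w0 J0 h0 (Box.plkC lam0 i0) z0) r0) +
      m * Real.log (2 * ((15 + 8 * b' + 1 : ℕ) : ℝ) + 1) := by
  have hq0 := hq.nonneg
  obtain ⟨Ga, hGa⟩ : ∃ Ga, Ga = F.zm (w0 + x) Ja ha (Box.plkC (lam0 + be) i0) za := ⟨_, rfl⟩
  obtain ⟨G0, hG0⟩ : ∃ G0, G0 = F.zm w0 J0 h0 (Box.plkC lam0 i0) z0 := ⟨_, rfl⟩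
  have c1 := CH_le_add hq0 (ptr (F.zm (w0 + x) Ja ha (Box.plkC (lam0 + be) i0) za) ra)
    (F.blab (w0 + x) (Box.plkC (lam0 + be) i0) za)
    (ptr (F.zm w0 J0 h0 (Box.plkC lam0 i0) z0) r0)
  refine c1.trans (add_le_add le_rfl ?_)
  have key := Plk.CH_vec_const hq
    ((F.zm (w0 + x) Ja ha (Box.plkC (lam0 + be) i0) za).X ra)
    (fun ω => (F.blab (w0 + x) (Box.plkC (lam0 + be) i0) za ω,
      ptr (F.zm w0 J0 h0 (Box.plkC lam0 i0) z0) r0 ω)) (c := ((15 + 8 * b' + 1 : ℕ) : ℝ)) (by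
    intro ω ω' hω _ hW i
    have h1 := Prod.ext_iff.1 hW
    simp only at h1
    have h2 := Prod.ext_iff.1 h1.2
    have h3 := Prod.ext_iff.1 h2.2
    have hs : Same F w0 x lam0 be i0 z0 za ω ω' := ⟨h1.1, h3.2⟩
    have h4 := zm_x_diff F h0 ha (Nat.cast_nonneg b') hr0 hra hr (hz ω hω) hs h2.1 h3.1 i
    have p0 : (0 : ℝ) < 2 ^ ra := by positivity
    have h5 := floor_diff (a := 2 ^ ra * (F.zm (w0 + x) Ja ha (Box.plkC (lam0 + be) i0) za).x ω i)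
      (b := 2 ^ ra * (F.zm (w0 + x) Ja ha (Box.plkC (lam0 + be) i0) za).x ω' i)
      (K := 15 + 8 * b') (by
        rw [← mul_sub, abs_mul, abs_of_pos p0]
        rw [le_div_iff₀ p0] at h4
        push_cast
        linarith)
    have h6 : |(F.zm (w0 + x) Ja ha (Box.plkC (lam0 + be) i0) za).X ra ω i -
      (F.zm (w0 + x) Ja ha (Box.plkC (lam0 + be) i0) za).X ra ω' i| ≤
        ((15 + 8 * b' + 1 : ℕ) : ℤ) := h5
    exact_mod_cast h6)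
  refine le_trans (CH_mono_left hq0 ?_) key
  intro ω ω' _ _ hW
  have h1 := Prod.ext_iff.1 hW
  simp only at h1
  have h2 := Prod.ext_iff.1 h1.2
  simp only at h2
  have h3 := Prod.ext_iff.1 h2.2
  have h4 := Prod.ext_iff.1 h3.2
  have hs : Same F w0 x lam0 be i0 z0 za ω ω' := ⟨h2.1, h4.2⟩
  have e0 : ∀ ω₁ : F.Ω, (F.zm w0 J0 h0 (Box.plkC lam0 i0) z0).T1 J0 ω₁ =
      (F.zm w0 J0 h0 (Box.plkC lam0 i0) z0).T ω₁ := by
    intro ω₁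
    unfold Fam.T1
    rw [Nat.sub_self, pow_zero, Nat.div_one]
  have ea : ∀ ω₁ : F.Ω, (F.zm (w0 + x) Ja ha (Box.plkC (lam0 + be) i0) za).T1 Ja ω₁ =
      (F.zm (w0 + x) Ja ha (Box.plkC (lam0 + be) i0) za).T ω₁ := by
    intro ω₁
    unfold Fam.T1
    rw [Nat.sub_self, pow_zero, Nat.div_one]
  have h5 := zm_T1_det F h0 ha le_rfl le_rfl (by omega : x + Ja ≤ J0) hs (by
    rw [e0, e0]
    exact h4.1)
  rw [ea, ea] at h5
  exact Prod.ext h1.1 (Prod.ext h5 h2.1)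

/-- **The line of the smaller box.** -/
theorem CH_ln (F : Fam m J) {w0 x lam0 be J0 Ja w' wz : ℕ} {i0 : Fin m}
    {z0 za : F.Ω → Fin m → ℝ} (h0 : w0 + J0 ≤ J) (ha : w0 + x + Ja ≤ J) {b' : ℕ}
    (hJ : Ja + x + be ≤ J0) (hw' : w' ≤ Ja) (hwz : wz ≤ J0) (hw : w' + x ≤ wz)
    {q : F.Ω → ℝ} (hq : IsLaw q) (hz : ∀ ω, 0 < q ω → ∀ i, |z0 ω i - za ω i| ≤ b' / 2 ^ lam0) :
    CH q (slam (F.zm (w0 + x) Ja ha (Box.plkC (lam0 + be) i0) za) w')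
      (slam (F.zm w0 J0 h0 (Box.plkC lam0 i0) z0) wz) ≤
      CH q (F.blab (w0 + x) (Box.plkC (lam0 + be) i0) za)
        (slam (F.zm w0 J0 h0 (Box.plkC lam0 i0) z0) wz) +
      (m * Real.log (2 * ((2 + 2 * b' + 1 : ℕ) : ℝ) + 1) +
        m * Real.log (2 * ((2 + 2 * b' + 1 : ℕ) : ℝ) + 1)) := by
  have hq0 := hq.nonneg
  have c1 := CH_le_add hq0 (slam (F.zm (w0 + x) Ja ha (Box.plkC (lam0 + be) i0) za) w')
    (F.blab (w0 + x) (Box.plkC (lam0 + be) i0) za)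
    (slam (F.zm w0 J0 h0 (Box.plkC lam0 i0) z0) wz)
  refine c1.trans (add_le_add le_rfl ?_)
  obtain ⟨U, hU⟩ : ∃ U : F.Ω → Fin m → ℤ, U = fun ω i =>
    ⌊(2 : ℝ) ^ Ja * (F.box (w0 + x) (Box.plkC (lam0 + be) i0) za).u ω i⌋ := ⟨_, rfl⟩
  obtain ⟨D, hD⟩ : ∃ D : F.Ω → Fin m → ℤ, D = fun ω i =>
    ⌊(2 : ℝ) ^ Ja * (F.box (w0 + x) (Box.plkC (lam0 + be) i0) za).d ω i⌋ := ⟨_, rfl⟩
  have pa : (0 : ℝ) < 2 ^ Ja := by positivity
  have hW : ∀ ω ω' : F.Ω, (F.blab (w0 + x) (Box.plkC (lam0 + be) i0) za ω,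
      slam (F.zm w0 J0 h0 (Box.plkC lam0 i0) z0) wz ω) =
      (F.blab (w0 + x) (Box.plkC (lam0 + be) i0) za ω',
      slam (F.zm w0 J0 h0 (Box.plkC lam0 i0) z0) wz ω') →
      Same F w0 x lam0 be i0 z0 za ω ω' ∧ (F.zm w0 J0 h0 (Box.plkC lam0 i0) z0).l ω =
      (F.zm w0 J0 h0 (Box.plkC lam0 i0) z0).l ω' ∧
      (F.zm w0 J0 h0 (Box.plkC lam0 i0) z0).T1 wz ω =
      (F.zm w0 J0 h0 (Box.plkC lam0 i0) z0).T1 wz ω' := by
    intro ω ω' h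
    have h1 := Prod.ext_iff.1 h
    simp only at h1
    have h2 := Prod.ext_iff.1 h1.2
    have h3 := Prod.ext_iff.1 h2.2
    exact ⟨⟨h1.1, h3.1⟩, h2.1, h3.2⟩
  have kU := Plk.CH_vec_const hq U
    (fun ω => (F.blab (w0 + x) (Box.plkC (lam0 + be) i0) za ω,
      slam (F.zm w0 J0 h0 (Box.plkC lam0 i0) z0) wz ω)) (c := ((2 + 2 * b' + 1 : ℕ) : ℝ)) (by
    intro ω ω' hω _ hW' i
    obtain ⟨hs, hl, -⟩ := hW ω ω' hW'
    have h4 := (zm_l_diff F h0 ha (Nat.cast_nonneg b') hJ (hz ω hω) hs hl i).1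
    have h5 := floor_diff (a := 2 ^ Ja * (F.box (w0 + x) (Box.plkC (lam0 + be) i0) za).u ω i)
      (b := 2 ^ Ja * (F.box (w0 + x) (Box.plkC (lam0 + be) i0) za).u ω' i)
      (K := 2 + 2 * b') (by
        rw [← mul_sub, abs_mul, abs_of_pos pa]
        rw [le_div_iff₀ pa] at h4
        push_cast
        linarith)
    rw [hU]
    exact_mod_cast h5)
  have kD := Plk.CH_vec_const hq D
    (fun ω => (F.blab (w0 + x) (Box.plkC (lam0 + be) i0) za ω,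
      slam (F.zm w0 J0 h0 (Box.plkC lam0 i0) z0) wz ω)) (c := ((2 + 2 * b' + 1 : ℕ) : ℝ)) (by
    intro ω ω' hω _ hW' i
    obtain ⟨hs, hl, -⟩ := hW ω ω' hW'
    have h4 := (zm_l_diff F h0 ha (Nat.cast_nonneg b') hJ (hz ω hω) hs hl i).2
    have h5 := floor_diff (a := 2 ^ Ja * (F.box (w0 + x) (Box.plkC (lam0 + be) i0) za).d ω i)
      (b := 2 ^ Ja * (F.box (w0 + x) (Box.plkC (lam0 + be) i0) za).d ω' i)
      (K := 2 + 2 * b') (by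
        rw [← mul_sub, abs_mul, abs_of_pos pa]
        rw [le_div_iff₀ pa] at h4
        push_cast
        have : (0 : ℝ) ≤ b' := Nat.cast_nonneg b'
        linarith)
    rw [hD]
    exact_mod_cast h5)
  have k1 := CH_subadd hq0 U D (fun ω => (F.blab (w0 + x) (Box.plkC (lam0 + be) i0) za ω,
      slam (F.zm w0 J0 h0 (Box.plkC lam0 i0) z0) wz ω))
  refine le_trans (CH_mono_left hq0 ?_) (k1.trans (add_le_add kU kD))
  intro ω ω' _ _ h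
  have h1 := Prod.ext_iff.1 h
  simp only at h1
  obtain ⟨hs, hl, hT⟩ := hW ω ω' h1.2
  have h2 := Prod.ext_iff.1 h1.1
  simp only at h2
  have h5 := zm_T1_det F h0 ha hw' hwz (by omega : x + w' ≤ wz) hs hT
  rw [hU, hD] at h2
  refine Prod.ext (Prod.ext ?_ ?_) (Prod.ext hs.a h5)
  · funext i
    change (⌊(2 : ℝ) ^ Ja * (F.box (w0 + x) (Box.plkC (lam0 + be) i0) za).u ω i⌋ : ℝ) / 2 ^ Ja =
      (⌊(2 : ℝ) ^ Ja * (F.box (w0 + x) (Box.plkC (lam0 + be) i0) za).u ω' i⌋ : ℝ) / 2 ^ Ja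
    have h6 : ⌊(2 : ℝ) ^ Ja * (F.box (w0 + x) (Box.plkC (lam0 + be) i0) za).u ω i⌋ =
      ⌊(2 : ℝ) ^ Ja * (F.box (w0 + x) (Box.plkC (lam0 + be) i0) za).u ω' i⌋ := congrFun h2.1 i
    rw [h6]
  · funext i
    change (⌊(2 : ℝ) ^ Ja * (F.box (w0 + x) (Box.plkC (lam0 + be) i0) za).d ω i⌋ : ℝ) / 2 ^ Ja =
      (⌊(2 : ℝ) ^ Ja * (F.box (w0 + x) (Box.plkC (lam0 + be) i0) za).d ω' i⌋ : ℝ) / 2 ^ Ja
    have h6 : ⌊(2 : ℝ) ^ Ja * (F.box (w0 + x) (Box.plkC (lam0 + be) i0) za).d ω i⌋ =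
      ⌊(2 : ℝ) ^ Ja * (F.box (w0 + x) (Box.plkC (lam0 + be) i0) za).d ω' i⌋ := congrFun h2.2 i
    rw [h6]

/-- A label of the window given the line of the zoom, and given its exact point. -/
theorem CH_slam (F : Fam m J) {w0 lam0 J0 r0 wz : ℕ} {i0 : Fin m}
    {z0 : F.Ω → Fin m → ℝ} (h0 : w0 + J0 ≤ J) (hwz : wz ≤ J0) {e : ℝ} (hTm : F.Tm e)
    (hz0 : Det F.p (wnd F w0) z0) {σ : Type} {S : F.Ω → σ} (hS : Det F.p (wnd F (w0 + wz)) S) :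
    CH F.p S (slam (F.zm w0 J0 h0 (Box.plkC lam0 i0) z0) wz) ≤
      CH F.p S (ptr (F.zm w0 J0 h0 (Box.plkC lam0 i0) z0) r0) + e := by
  have g : ∀ (K : ℕ) (hK : K ≤ J0) (ω₁ : F.Ω),
      (F.zm w0 J0 h0 (Box.plkC lam0 i0) z0).T1 K ω₁ =
        (F.box w0 (Box.plkC lam0 i0) z0).T1 K ω₁ := by
    intro K hK ω₁
    have h1 : (F.zm w0 J0 h0 (Box.plkC lam0 i0) z0).T1 K ω₁ =
      (F.box w0 (Box.plkC lam0 i0) z0).T1 J0 ω₁ / 2 ^ (J0 - K) := rfl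
    obtain ⟨k, hk⟩ := Nat.exists_eq_add_of_le hK
    subst hk
    rw [h1, Nat.add_sub_cancel_left]
    exact (Pool.KSAT.T1_div (F.box w0 (Box.plkC lam0 i0) z0) (w := K) (K := k) (by omega) ω₁).symm
  have hlin : ∀ ω ω' : F.Ω, (F.box w0 (Box.plkC lam0 i0) z0).l ω =
      (F.box w0 (Box.plkC lam0 i0) z0).l ω' →
      (F.zm w0 J0 h0 (Box.plkC lam0 i0) z0).l ω = (F.zm w0 J0 h0 (Box.plkC lam0 i0) z0).l ω' := by
    intro ω ω' h
    have h1 : (F.box w0 (Box.plkC lam0 i0) z0).u ω = (F.box w0 (Box.plkC lam0 i0) z0).u ω' :=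
      (Prod.ext_iff.1 h).1
    have h2 : (F.box w0 (Box.plkC lam0 i0) z0).d ω = (F.box w0 (Box.plkC lam0 i0) z0).d ω' :=
      (Prod.ext_iff.1 h).2
    refine Prod.ext ?_ ?_
    · funext i
      change (⌊(2 : ℝ) ^ J0 * (F.box w0 (Box.plkC lam0 i0) z0).u ω i⌋ : ℝ) / 2 ^ J0 =
        (⌊(2 : ℝ) ^ J0 * (F.box w0 (Box.plkC lam0 i0) z0).u ω' i⌋ : ℝ) / 2 ^ J0
      rw [h1]
    · funext i
      change (⌊(2 : ℝ) ^ J0 * (F.box w0 (Box.plkC lam0 i0) z0).d ω i⌋ : ℝ) / 2 ^ J0 =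
        (⌊(2 : ℝ) ^ J0 * (F.box w0 (Box.plkC lam0 i0) z0).d ω' i⌋ : ℝ) / 2 ^ J0
      rw [h2]
  have c1 := time_free F (v := w0 + wz) (by omega) hTm hS
    (V := slam (F.zm w0 J0 h0 (Box.plkC lam0 i0) z0) wz) (by
      intro ω ω' hω hω' hh
      have a1 := Prod.ext_iff.1 hh
      have a2 := Prod.ext_iff.1 a1.2
      have a0 : F.l ω = F.l ω' := a1.1
      have aT : F.T1 (w0 + wz) ω = F.T1 (w0 + wz) ω' := a2.1
      have aZ : F.Z ω = F.Z ω' := a2.2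
      have a3 : F.T1 w0 ω = F.T1 w0 ω' := by
        rw [Pool.KSAT.T1_div F (by omega : w0 + wz ≤ J) ω,
          Pool.KSAT.T1_div F (by omega : w0 + wz ≤ J) ω', aT]
      have a4 : z0 ω = z0 ω' := hz0 ω ω' hω hω' (Prod.ext a0 (Prod.ext a3 aZ))
      have a5 := Box.blab_det F (C := Box.plkC lam0 i0) a0 a3 a4 aZ
      have a6 : (F.box w0 (Box.plkC lam0 i0) z0).T1 wz ω =
          (F.box w0 (Box.plkC lam0 i0) z0).T1 wz ω' := by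
        have c1 := Box.T1_box F (by omega : w0 + wz ≤ J) (Box.plkC lam0 i0) z0 ω
        have c2 := Box.T1_box F (by omega : w0 + wz ≤ J) (Box.plkC lam0 i0) z0 ω'
        rw [aT, a3] at c1
        omega
      exact Prod.ext (hlin ω ω' a5.2) (Prod.ext a5.1 (by
        change (F.zm w0 J0 h0 (Box.plkC lam0 i0) z0).T1 wz ω =
          (F.zm w0 J0 h0 (Box.plkC lam0 i0) z0).T1 wz ω'
        rw [g wz hwz, g wz hwz, a6])))
    (by
      intro ω ω' _ _ hh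
      have a1 := Prod.ext_iff.1 hh
      have a2 := Prod.ext_iff.1 a1.2
      have a3 : F.blab w0 (Box.plkC lam0 i0) z0 ω = F.blab w0 (Box.plkC lam0 i0) z0 ω' := a2.1
      have a4 : (F.zm w0 J0 h0 (Box.plkC lam0 i0) z0).T1 wz ω =
          (F.zm w0 J0 h0 (Box.plkC lam0 i0) z0).T1 wz ω' := a2.2
      rw [g wz hwz, g wz hwz] at a4
      obtain ⟨b1, -⟩ := Box.split_lab F a3
      rw [Box.T1_box F (by omega : w0 + wz ≤ J) (Box.plkC lam0 i0) z0 ω,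
        Box.T1_box F (by omega : w0 + wz ≤ J) (Box.plkC lam0 i0) z0 ω', a4, b1])
  refine c1.trans (add_le_add (CH_mono_cond F.isLaw.nonneg ?_) le_rfl)
  intro ω ω' _ _ hh
  have a1 := Prod.ext_iff.1 hh
  simp only at a1
  have a2 := Prod.ext_iff.1 a1.2
  have a3 := Prod.ext_iff.1 a2.2
  have aT : (F.zm w0 J0 h0 (Box.plkC lam0 i0) z0).T ω =
      (F.zm w0 J0 h0 (Box.plkC lam0 i0) z0).T ω' := by
    change F.T ω % 2 ^ (J - w0) / 2 ^ (J - w0 - J0) = F.T ω' % 2 ^ (J - w0) / 2 ^ (J - w0 - J0)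
    rw [a1.1]
  have ax : (F.zm w0 J0 h0 (Box.plkC lam0 i0) z0).x ω =
      (F.zm w0 J0 h0 (Box.plkC lam0 i0) z0).x ω' := by
    have b1 : (F.zm w0 J0 h0 (Box.plkC lam0 i0) z0).u ω =
      (F.zm w0 J0 h0 (Box.plkC lam0 i0) z0).u ω' := (Prod.ext_iff.1 a2.1).1
    have b2 : (F.zm w0 J0 h0 (Box.plkC lam0 i0) z0).d ω =
      (F.zm w0 J0 h0 (Box.plkC lam0 i0) z0).d ω' := (Prod.ext_iff.1 a2.1).2
    funext i
    unfold Fam.x Fam.t
    rw [b1, b2, aT]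
  refine Prod.ext ?_ (Prod.ext aT a3.1)
  funext i
  change ⌊(2 : ℝ) ^ r0 * (F.zm w0 J0 h0 (Box.plkC lam0 i0) z0).x ω i⌋ =
    ⌊(2 : ℝ) ^ r0 * (F.zm w0 J0 h0 (Box.plkC lam0 i0) z0).x ω' i⌋
  rw [ax]

/-- The label of the smaller box is a function of the window. -/
theorem blab_wnd (F : Fam m J) {wa w : ℕ} (hwa : wa ≤ w) (hw : w ≤ J) {κ : Type} (C : Crd m κ)
    {g : F.Ω → κ} (hg : Det F.p (wnd F wa) g) : Det F.p (wnd F w) (F.blab wa C g) := by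
  intro ω ω' hω hω' hh
  have a1 := Prod.ext_iff.1 hh
  have a2 := Prod.ext_iff.1 a1.2
  have a0 : F.l ω = F.l ω' := a1.1
  have aT : F.T1 w ω = F.T1 w ω' := a2.1
  have aZ : F.Z ω = F.Z ω' := a2.2
  obtain ⟨k, rfl⟩ := Nat.exists_eq_add_of_le hwa
  have a3 : F.T1 wa ω = F.T1 wa ω' := by
    rw [Pool.KSAT.T1_div F hw ω, Pool.KSAT.T1_div F hw ω', aT]
  have a4 : g ω = g ω' := hg ω ω' hω hω' (Prod.ext a0 (Prod.ext a3 aZ))
  exact (Box.blab_det F (C := C) a0 a3 a4 aZ).1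

end Pool.BOX
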