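import Pool.Agent.H19.BOX.Ent

/-!
# Change of box: exact functions

On an event of small cost the exact point and the line of the smaller box are functions of those of
the larger box.
-/

set_option autoImplicit false

namespace Pool.BOX

open Finset Real
open Pool.Agent.H49.Ent Pool.Agent.H32.Dense Pool.STK Pool.KA Pool.KSAT Pool.K2S Pool.PB Pool.ZCL

variable {m J : ℕ}

/-- Two quantities of small conditional entropy are exact functions on a large event. -/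
theorem two_fns {Ω S T S' T' : Type} [Fintype Ω] [Nonempty S] [Nonempty S'] {p : Ω → ℝ}
    (hp : IsLaw p) {B : Ω → Prop} (hB : 0 < Pe p B) {c : Ω → S} {g : Ω → T} {c' : Ω → S'}
    {g' : Ω → T'} {δ : ℝ} (hδ : 0 < δ) (h : CH (cond p B True) c g ≤ δ)
    (h' : CH (cond p B True) c' g' ≤ δ) :
    ∃ (B' : Ω → Prop) (φ : T → S) (ψ : T' → S'), Sub B' B ∧
      Real.exp (-(8 * δ)) / 2 * Pe p B ≤ Pe p B' ∧
      ∀ ω, B' ω → c ω = φ (g ω) ∧ c' ω = ψ (g' ω) := by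
  classical
  have hl : IsLaw (cond p B True) := isLaw_cond hp hB
  obtain ⟨C, hC⟩ : ∃ C : Fin 2 → Ω → S ⊕ S', C = ![fun ω => Sum.inl (c ω), fun ω => Sum.inr (c' ω)] :=
    ⟨_, rfl⟩
  obtain ⟨G, hG⟩ : ∃ G : Fin 2 → Ω → T ⊕ T', G = ![fun ω => Sum.inl (g ω), fun ω => Sum.inr (g' ω)] :=
    ⟨_, rfl⟩
  obtain ⟨ζ, hζ⟩ := exists_fns_of_CH (n := 2) (S := fun _ => S ⊕ S') (T := fun _ => T ⊕ T') hl C G
    hδ (by
      intro i
      rw [hC, hG]
      fin_cases i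
      · simp only [Fin.zero_eta, Matrix.cons_val_zero]
        refine le_trans (le_of_eq (CH_congr hl.nonneg ?_ ?_ ?_ ?_)) h
        · intro ω ω' _ _ h1
          exact Sum.inl.inj (Prod.ext_iff.1 h1).1
        · intro ω ω' _ _ h1
          exact congrArg Sum.inl (Prod.ext_iff.1 h1).1
        · intro ω ω' _ _ h1
          exact Sum.inl.inj h1
        · intro ω ω' _ _ h1
          exact congrArg Sum.inl h1
      · simp only [Fin.mk_one, Matrix.cons_val_one]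
        refine le_trans (le_of_eq (CH_congr hl.nonneg ?_ ?_ ?_ ?_)) h'
        · intro ω ω' _ _ h1
          exact Sum.inr.inj (Prod.ext_iff.1 h1).1
        · intro ω ω' _ _ h1
          exact congrArg Sum.inr (Prod.ext_iff.1 h1).1
        · intro ω ω' _ _ h1
          exact Sum.inr.inj h1
        · intro ω ω' _ _ h1
          exact congrArg Sum.inr h1)
  have e1 : (2 : ℝ) * ((2 : ℕ) : ℝ) ^ 2 * δ = 8 * δ := by
    push_cast
    ring
  rw [e1, Pe_cond, le_div_iff₀ hB] at hζ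
  refine ⟨_, fun t => (ζ 0 (Sum.inl t)).elim id (fun _ => Classical.arbitrary S),
    fun t => (ζ 1 (Sum.inr t)).elim (fun _ => Classical.arbitrary S') id, fun ω hω => hω.1, hζ,
    fun ω hω => ⟨?_, ?_⟩⟩
  · have h1 := hω.2 0
    rw [hC, hG] at h1
    have h2 : Sum.inl (c ω) = ζ 0 (Sum.inl (g ω)) := h1
    simp only
    rw [← h2]
    rfl
  · have h1 := hω.2 1
    rw [hC, hG] at h1
    have h2 : Sum.inr (c' ω) = ζ 1 (Sum.inr (g' ω)) := h1
    simp only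
    rw [← h2]
    rfl

/-- The constant of the change of box. -/
noncomputable def cB (m b' : ℕ) : ℝ := m * Real.log (2 * ((15 + 8 * b' + 1 : ℕ) : ℝ) + 1) +
  (m * Real.log (2 * ((2 + 2 * b' + 1 : ℕ) : ℝ) + 1) +
    m * Real.log (2 * ((2 + 2 * b' + 1 : ℕ) : ℝ) + 1))

/-- **Change of box**: the exact point and the line of the smaller box are functions of those of the
larger box, if the label of the smaller box is visible in the larger box. -/
theorem chb_fns (F : Fam m J) {w0 x lam0 be J0 Ja ra r0 w' wz : ℕ} {i0 : Fin m}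
    {z0 za : F.Ω → Fin m → ℝ} (h0 : w0 + J0 ≤ J) (ha : w0 + x + Ja ≤ J) {b' : ℕ}
    (hr0 : r0 ≤ J0) (hra : ra ≤ Ja) (hr : ra + x + be ≤ r0) (hJ : Ja + x + be ≤ J0)
    (hw' : w' ≤ Ja) (hwz : wz ≤ J0) (hw : w' + x ≤ wz) {B : F.Ω → Prop}
    (hz : ∀ ω, B ω → ∀ i, |z0 ω i - za ω i| ≤ b' / 2 ^ lam0)
    (hz0 : ∀ ω ω', B ω → B ω' → wnd F w0 ω = wnd F w0 ω' → z0 ω = z0 ω')
    (hza : ∀ ω ω', B ω → B ω' → wnd F (w0 + x) ω = wnd F (w0 + x) ω' → za ω = za ω')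
    {e e' : ℝ} (hB : 0 < Pe F.p B) (hl : IsLaw (cond F.p B True)) (he' : 0 ≤ e')
    (hTm : (F.res B True hl).Tm e')
    (he : CH (cond F.p B True) (F.blab (w0 + x) (Box.plkC (lam0 + be) i0) za)
      (ptr (F.zm w0 J0 h0 (Box.plkC lam0 i0) z0) r0) ≤ e) :
    ∃ (B' : F.Ω → Prop)
      (φ : (Fin m → ℤ) × (ℕ × (F.zm w0 J0 h0 (Box.plkC lam0 i0) z0).ζ) →
        (Fin m → ℤ) × (ℕ × (F.zm (w0 + x) Ja ha (Box.plkC (lam0 + be) i0) za).ζ))
      (ψ : ((Fin m → ℝ) × (Fin m → ℝ)) × (F.zm w0 J0 h0 (Box.plkC lam0 i0) z0).ζ × ℕ →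
        ((Fin m → ℝ) × (Fin m → ℝ)) ×
          (F.zm (w0 + x) Ja ha (Box.plkC (lam0 + be) i0) za).ζ × ℕ),
      Sub B' B ∧ Real.exp (-(8 * (e + e' + cB m b'))) / 2 * Pe F.p B ≤ Pe F.p B' ∧
      ∀ ω, B' ω →
        ptr (F.zm (w0 + x) Ja ha (Box.plkC (lam0 + be) i0) za) ra ω =
          φ (ptr (F.zm w0 J0 h0 (Box.plkC lam0 i0) z0) r0 ω) ∧
        slam (F.zm (w0 + x) Ja ha (Box.plkC (lam0 + be) i0) za) w' ω =
          ψ (slam (F.zm w0 J0 h0 (Box.plkC lam0 i0) z0) wz ω) := by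
  classical
  have hp := F.isLaw
  have hin : ∀ ω, 0 < cond F.p B True ω → B ω := fun ω hω =>
    of_eq_true ((cond_pos_iff hp.nonneg B True ω).1 hω).2
  have hz' : ∀ ω, 0 < cond F.p B True ω → ∀ i, |z0 ω i - za ω i| ≤ b' / 2 ^ lam0 := fun ω hω =>
    hz ω (hin ω hω)
  have c1 := CH_pt F (i0 := i0) (lam0 := lam0) (z0 := z0) (za := za) h0 ha hr0 hra hr (by omega : Ja + x ≤ J0) hl hz'
  have c2 := CH_ln F (i0 := i0) (lam0 := lam0) (z0 := z0) (za := za) h0 ha hJ hw' hwz hw hl hz'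
  have hzaw : Det (F.res B True hl).p (wnd (F.res B True hl) (w0 + x)) za := fun ω ω' hω hω' hh =>
    hza ω ω' (hin ω hω) (hin ω' hω') hh
  have hzow : Det (F.res B True hl).p (wnd (F.res B True hl) w0) z0 := fun ω ω' hω hω' hh =>
    hz0 ω ω' (hin ω hω) (hin ω' hω') hh
  have hS := blab_wnd (F.res B True hl) (wa := w0 + x) (w := w0 + wz) (by omega) (by omega)
    (Box.plkC (lam0 + be) i0) hzaw
  have c3 := CH_slam (F.res B True hl) (i0 := i0) (lam0 := lam0) (z0 := z0) (r0 := r0) h0 hwz hTm hzow hS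
  have c3' : CH (cond F.p B True) (F.blab (w0 + x) (Box.plkC (lam0 + be) i0) za)
      (slam (F.zm w0 J0 h0 (Box.plkC lam0 i0) z0) wz) ≤
      CH (cond F.p B True) (F.blab (w0 + x) (Box.plkC (lam0 + be) i0) za)
        (ptr (F.zm w0 J0 h0 (Box.plkC lam0 i0) z0) r0) + e' := c3
  have hm : (0 : ℝ) < m := by exact_mod_cast Fin.pos i0
  have hlog : ∀ n : ℕ, 0 < Real.log (2 * ((n + 1 : ℕ) : ℝ) + 1) := fun n => by
    refine Real.log_pos ?_
    push_cast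
    have : (0 : ℝ) ≤ n := Nat.cast_nonneg n
    linarith
  have l1 : 0 < m * Real.log (2 * ((15 + 8 * b' + 1 : ℕ) : ℝ) + 1) :=
    mul_pos hm (hlog (15 + 8 * b'))
  have l2 : 0 < m * Real.log (2 * ((2 + 2 * b' + 1 : ℕ) : ℝ) + 1) :=
    mul_pos hm (hlog (2 + 2 * b'))
  have hcB : cB m b' = m * Real.log (2 * ((15 + 8 * b' + 1 : ℕ) : ℝ) + 1) +
    (m * Real.log (2 * ((2 + 2 * b' + 1 : ℕ) : ℝ) + 1) +
    m * Real.log (2 * ((2 + 2 * b' + 1 : ℕ) : ℝ) + 1)) := rfl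
  have he0 : 0 ≤ e := (CH_nonneg hl.nonneg _ _).trans he
  obtain ⟨ω₀, -⟩ : ∃ ω : F.Ω, 0 < F.p ω := by
    by_contra hcon
    push Not at hcon
    have h1 : ∑ ω, F.p ω ≤ 0 := Finset.sum_nonpos fun ω _ => hcon ω
    rw [hp.sum_one] at h1
    linarith
  haveI : Nonempty ((Fin m → ℤ) ×
      (ℕ × (F.zm (w0 + x) Ja ha (Box.plkC (lam0 + be) i0) za).ζ)) :=
    ⟨ptr (F.zm (w0 + x) Ja ha (Box.plkC (lam0 + be) i0) za) ra ω₀⟩
  haveI : Nonempty (((Fin m → ℝ) × (Fin m → ℝ)) ×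
      (F.zm (w0 + x) Ja ha (Box.plkC (lam0 + be) i0) za).ζ × ℕ) :=
    ⟨slam (F.zm (w0 + x) Ja ha (Box.plkC (lam0 + be) i0) za) w' ω₀⟩
  exact two_fns hp hB (by rw [hcB]; linarith) (c1.trans (by rw [hcB]; linarith))
    (c2.trans (by rw [hcB]; linarith))

/-- **The label of the box is visible** from the points of the family. -/
theorem blab_vis (F : Fam m J) {i₀ : Fin m} {r l w Q : ℕ} {B : F.Ω → Prop}
    {z : F.Ω → Fin m → ℝ} (hz : AzF F i₀ r l w B z) (hr : r ≤ Q) (hw : w + l ≤ Q) (hwJ : w ≤ J)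
    {q : F.Ω → ℝ} (hq : IsLaw q) (hin : ∀ ω, 0 < q ω → B ω) :
    CH q (F.blab w (Box.plkC l i₀) z) (ptr F Q) ≤ m * Real.log 25 + m * Real.log 15 := by
  have hq0 := hq.nonneg
  obtain ⟨γ, hγ⟩ := hz.vis
  obtain ⟨φ, hφ⟩ := ptr_coarse F hr
  have hzz : ∀ ω ω', B ω → B ω' → ptr F Q ω = ptr F Q ω' → z ω = z ω' := by
    intro ω ω' h1 h2 e
    rw [hγ ω h1, hγ ω' h2, hφ ω, hφ ω', e]
  have hvel : ∀ ω ω', B ω → B ω' → ptr F Q ω = ptr F Q ω' → ∀ i,
      |pco l i₀ (z ω) (F.d ω) i - pco l i₀ (z ω') (F.d ω') i| ≤ 6 := by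
    intro ω ω' h1 h2 e i
    exact hz.vel h1 h2 (by rw [hφ ω, hφ ω', e]) i
  have kV := Plk.CH_vec_const hq (F.bvl (Box.plkC l i₀) z) (ptr F Q) (c := 7) (by
    intro ω ω' hω hω' hpt i
    have h1 := hvel ω ω' (hin ω hω) (hin ω' hω') hpt i
    have h2 : |F.bvl (Box.plkC l i₀) z ω i - F.bvl (Box.plkC l i₀) z ω' i| ≤
        ((6 + 1 : ℕ) : ℤ) := by
      have e1 : F.bvl (Box.plkC l i₀) z ω i = ⌊2 ^ 0 * pco l i₀ (z ω) (F.d ω) i⌋ := rfl
      have e2 : F.bvl (Box.plkC l i₀) z ω' i = ⌊2 ^ 0 * pco l i₀ (z ω') (F.d ω') i⌋ := rfl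
      rw [e1, e2, pow_zero, one_mul, one_mul]
      exact floor_diff (by exact_mod_cast h1)
    exact_mod_cast h2)
  have kC := Plk.CH_vec_const hq (F.bcl w (Box.plkC l i₀) z) (ptr F Q) (c := 12) (by
    intro ω ω' hω hω' hpt i
    have h1 := hvel ω ω' (hin ω hω) (hin ω' hω') hpt i
    have hzω := hzz ω ω' (hin ω hω) (hin ω' hω') hpt
    have hX : F.X Q ω = F.X Q ω' := (Prod.ext_iff.1 hpt).1
    have hT : F.T ω = F.T ω' := (Prod.ext_iff.1 (Prod.ext_iff.1 hpt).2).1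
    have h2 := bd_cell (F := F) (lam := l) (r := Q) (C := Box.plkC l i₀) (b := 5) (k := z ω)
      (fun x y hxy i => by
        have := hz.bound (hin ω hω) x y hxy i
        exact_mod_cast this) hX i
    have x1 : ∀ ω, 2 ^ w * (Box.plkC l i₀).L (z ω) (F.x1 w ω) i =
        2 ^ w * (Box.plkC l i₀).L (z ω) (F.x ω) i -
          (F.box w (Box.plkC l i₀) z).t ω * (Box.plkC l i₀).L (z ω) (F.d ω) i := by
      intro ω
      have a1 := Box.box_x F hwJ (Box.plkC l i₀) z ω i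
      have a2 := Box.bcl_eq F w (Box.plkC l i₀) z ω i
      have a3 := Box.bvl_eq F w (Box.plkC l i₀) z ω i
      have a4 : (F.box w (Box.plkC l i₀) z).x ω i = (F.box w (Box.plkC l i₀) z).u ω i +
        (F.box w (Box.plkC l i₀) z).t ω * (F.box w (Box.plkC l i₀) z).d ω i := rfl
      rw [a1, a2, a3, a4]
      ring
    have ht : (F.box w (Box.plkC l i₀) z).t ω = (F.box w (Box.plkC l i₀) z).t ω' := by
      change ((F.T ω % 2 ^ (J - w) : ℕ) : ℝ) / 2 ^ (J - w) =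
        ((F.T ω' % 2 ^ (J - w) : ℕ) : ℝ) / 2 ^ (J - w)
      rw [hT]
    have k1 : 2 ^ w * |(Box.plkC l i₀).L (z ω) (F.x ω) i -
        (Box.plkC l i₀).L (z ω) (F.x ω') i| ≤ 5 := by
      have p1 : (0 : ℝ) < 2 ^ l := by positivity
      have h3 : (2 : ℝ) ^ w * 2 ^ l ≤ 2 ^ Q := by
        rw [← pow_add]
        exact pow_le_pow_right₀ (by norm_num) hw
      have h4 := abs_nonneg ((Box.plkC l i₀).L (z ω) (F.x ω) i -
        (Box.plkC l i₀).L (z ω) (F.x ω') i)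
      have h5 : 2 ^ w * |(Box.plkC l i₀).L (z ω) (F.x ω) i -
        (Box.plkC l i₀).L (z ω) (F.x ω') i| * 2 ^ l ≤ 5 * 2 ^ l := by
        calc _ = 2 ^ w * 2 ^ l * |(Box.plkC l i₀).L (z ω) (F.x ω) i -
              (Box.plkC l i₀).L (z ω) (F.x ω') i| := by ring
          _ ≤ 2 ^ Q * |(Box.plkC l i₀).L (z ω) (F.x ω) i -
              (Box.plkC l i₀).L (z ω) (F.x ω') i| := mul_le_mul_of_nonneg_right h3 h4
          _ ≤ _ := h2
      exact le_of_mul_le_mul_right h5 p1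
    have htm := Box.t_mem F w (Box.plkC l i₀) z ω
    have k2 : |(F.box w (Box.plkC l i₀) z).t ω * ((Box.plkC l i₀).L (z ω) (F.d ω) i -
        (Box.plkC l i₀).L (z ω') (F.d ω') i)| ≤ 6 := by
      rw [abs_mul, abs_of_nonneg htm.1]
      have h1' : |(Box.plkC l i₀).L (z ω) (F.d ω) i - (Box.plkC l i₀).L (z ω') (F.d ω') i| ≤ 6 :=
        h1
      calc _ ≤ 1 * (6 : ℝ) := mul_le_mul htm.2.le h1' (abs_nonneg _) zero_le_one
        _ = 6 := one_mul _
    have h6 : |F.bcl w (Box.plkC l i₀) z ω i - F.bcl w (Box.plkC l i₀) z ω' i| ≤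
        ((11 + 1 : ℕ) : ℤ) := by
      have e1 : F.bcl w (Box.plkC l i₀) z ω i = ⌊2 ^ w * (Box.plkC l i₀).L (z ω) (F.x1 w ω) i⌋ :=
        rfl
      have e2 : F.bcl w (Box.plkC l i₀) z ω' i =
        ⌊2 ^ w * (Box.plkC l i₀).L (z ω') (F.x1 w ω') i⌋ := rfl
      rw [e1, e2]
      refine floor_diff ?_
      rw [x1 ω, x1 ω', ← ht, ← hzω]
      have e3 : 2 ^ w * (Box.plkC l i₀).L (z ω) (F.x ω) i -
          (F.box w (Box.plkC l i₀) z).t ω * (Box.plkC l i₀).L (z ω) (F.d ω) i -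
          (2 ^ w * (Box.plkC l i₀).L (z ω) (F.x ω') i -
            (F.box w (Box.plkC l i₀) z).t ω * (Box.plkC l i₀).L (z ω) (F.d ω') i) =
          2 ^ w * ((Box.plkC l i₀).L (z ω) (F.x ω) i - (Box.plkC l i₀).L (z ω) (F.x ω') i) -
          (F.box w (Box.plkC l i₀) z).t ω * ((Box.plkC l i₀).L (z ω) (F.d ω) i -
            (Box.plkC l i₀).L (z ω) (F.d ω') i) := by ring
      rw [e3]
      have k3 : |2 ^ w * ((Box.plkC l i₀).L (z ω) (F.x ω) i -
          (Box.plkC l i₀).L (z ω) (F.x ω') i)| ≤ 5 := by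
        rw [abs_mul, abs_of_pos (by positivity)]
        exact k1
      rw [← hzω] at k2
      push_cast
      exact (abs_sub _ _).trans (by linarith)
    exact_mod_cast h6)
  have k := CH_subadd hq0 (F.bcl w (Box.plkC l i₀) z) (F.bvl (Box.plkC l i₀) z) (ptr F Q)
  have e25 : (2 : ℝ) * 12 + 1 = 25 := by norm_num
  have e15 : (2 : ℝ) * 7 + 1 = 15 := by norm_num
  rw [e25] at kC
  rw [e15] at kV
  refine le_trans (CH_mono_left hq0 ?_) (k.trans (add_le_add kC kV))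
  intro ω ω' hω hω' h
  have h1 := Prod.ext_iff.1 h
  simp only at h1
  have hzω := hzz ω ω' (hin ω hω) (hin ω' hω') h1.2
  have hT : F.T ω = F.T ω' := (Prod.ext_iff.1 (Prod.ext_iff.1 h1.2).2).1
  have hZ : F.Z ω = F.Z ω' := (Prod.ext_iff.1 (Prod.ext_iff.1 h1.2).2).2
  refine Prod.ext (Prod.ext (Prod.ext ?_ hzω) h1.1) hZ
  change F.T ω / 2 ^ (J - w) = F.T ω' / 2 ^ (J - w)
  rw [hT]

end Pool.BOX
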