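import Pool.Agent.H19.BOX.Fns

/-!
# Change of box: stable maximal families
-/

set_option autoImplicit false

namespace Pool.BOX

open Finset Real
open Pool.Agent.H49.Ent Pool.Agent.H32.Dense Pool.STK Pool.KA Pool.KSAT Pool.K2S Pool.PB Pool.ZCL
open Pool.S6K (exact_label ball_claim)

/-- **Labels are visible from the points of the zoom**, for stable maximal families. -/
theorem az_see {m : ℕ} {a R h₁ : ℝ} (ha : 1 ≤ a) (hR : 0 < R) (hU : UBa m a R) (hh₁ : 0 < h₁)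
    (i₀ : Fin m) {e : ℝ} (he : 0 < e) (δ : ℝ) : ∃ τ > 0, ∃ J₁ : ℕ, ∀ J ≥ J₁, ∀ (F : Fam m J)
    (A : F.Ω → Prop), Fam.Stt F a R τ A → Lb F i₀ ⌊h₁ * J⌋₊ A → ∀ (r w lam J' : ℕ)
    (z : F.Ω → Fin m → ℝ) (h : w + J' ≤ J), w + J' + lam ≤ J → r ≤ J → AzF F i₀ r lam w A z →
    ∀ P ≤ J', ∀ (σ : Type) (S : F.Ω → σ),
    (∀ ω ω', A ω → A ω' → wnd F (w + P) ω = wnd F (w + P) ω' → S ω = S ω') →
    (∀ B : F.Ω → Prop, Sub B A → 0 < Pe F.p B →
      CH (cond F.p B True) S (ptr F (w + P + lam)) ≤ δ) →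
    CH (cond F.p A True) S (ptr (F.zm w J' h (Box.plkC lam i₀) z) P) ≤ e * J := by
  obtain ⟨γ, hγ, hz⟩ := zm_see (m := m) (b := 4) ha he (by norm_num)
  obtain ⟨g, hg⟩ : ∃ g, g = min (min γ 1) h₁ := ⟨_, rfl⟩
  have hg0 : 0 < g := by rw [hg]; exact lt_min (lt_min hγ one_pos) hh₁
  have hgγ : g ≤ γ := by rw [hg]; exact (min_le_left _ _).trans (min_le_left _ _)
  have hg1 : g ≤ 1 := by rw [hg]; exact (min_le_left _ _).trans (min_le_right _ _)
  have hgh : g ≤ h₁ := by rw [hg]; exact min_le_right _ _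
  obtain ⟨τb, hτb, Jb, hball⟩ := ball_claim ha hR hU (by positivity : 0 < g / 2)
  obtain ⟨τ₁, hτ₁, J₁, hmain⟩ := hz R (max δ (m * Real.log (2 * 6 + 3))) (τb / 2) (by positivity)
  obtain ⟨τ, hτ⟩ : ∃ τ, τ = min τ₁ (τb / 4) := ⟨_, rfl⟩
  have hτ0 : 0 < τ := by rw [hτ]; exact lt_min hτ₁ (by positivity)
  have hττ₁ : τ ≤ τ₁ := by rw [hτ]; exact min_le_left _ _
  have hττb : τ ≤ τb / 4 := by rw [hτ]; exact min_le_right _ _
  obtain ⟨J₂, hJ₂⟩ := exists_nat_gt (4 / g + 4 * Real.log 5 / τb + 1)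
  refine ⟨τ, hτ0, max J₁ (max Jb J₂), fun J hJ F A hS hLb r w lam J' z h hr hrJ haz
    P hP σ S hSw hSv => ?_⟩
  have hJ1 : J₁ ≤ J := (le_max_left _ _).trans hJ
  have hJb : Jb ≤ J := (le_max_left _ _).trans ((le_max_right _ _).trans hJ)
  have hJ2 : 4 / g + 4 * Real.log 5 / τb + 1 < J :=
    hJ₂.trans_le (by exact_mod_cast (le_max_right _ _).trans ((le_max_right _ _).trans hJ))
  have hJr : (0 : ℝ) ≤ J := Nat.cast_nonneg J
  have hl5 : 0 < Real.log 5 := Real.log_pos (by norm_num)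
  have q1 : 0 < 4 / g := by positivity
  have q2 : 0 < 4 * Real.log 5 / τb := by positivity
  have r1 : 4 ≤ g * J := by
    have h1 : 4 / g < J := by linarith
    rw [div_lt_iff₀ hg0] at h1
    linarith
  have r2 : Real.log 5 ≤ τb / 4 * J := by
    have h1 : 4 * Real.log 5 / τb < J := by linarith
    rw [div_lt_iff₀ hτb] at h1
    linarith
  -- the scales
  obtain ⟨x1, hx1⟩ : ∃ x1, x1 = ⌊g * J⌋₊ := ⟨_, rfl⟩
  have hx1a : (x1 : ℝ) ≤ g * J := by rw [hx1]; exact Nat.floor_le (by positivity)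
  have hx1b : g * J < x1 + 1 := by rw [hx1]; exact Nat.lt_floor_add_one _
  have hx1c : 1 ≤ x1 := by
    have : (0 : ℝ) < x1 := by linarith
    exact_mod_cast this
  have hx1h : x1 ≤ ⌊h₁ * J⌋₊ := by
    rw [hx1]
    exact Nat.floor_le_floor (mul_le_mul_of_nonneg_right hgh hJr)
  have hx1J : x1 ≤ J := by
    have : (x1 : ℝ) ≤ J := hx1a.trans (by nlinarith)
    exact_mod_cast this
  obtain ⟨q, hq⟩ : ∃ q, q + 1 = x1 := ⟨x1 - 1, by omega⟩
  have hqr : (q : ℝ) + 1 = x1 := by exact_mod_cast hq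
  have hqx : g / 2 * J ≤ q := by linarith
  have hA0 : 0 < Pe F.p A := lt_of_lt_of_le (Real.exp_pos _) hS.2.2.2
  have hS1 := Fam.Stt.mono (by linarith : τ ≤ τb) hS
  -- the velocity is not frozen
  have hnf : ∀ B : F.Ω → Prop, Sub B A → Real.exp (-(τb / 2 * J)) * Pe F.p A ≤ Pe F.p B →
      ¬ FrzG F i₀ 0 (0 + x1) B := by
    intro B hBA hPB hF
    rw [Nat.zero_add] at hF
    obtain ⟨B', hB', hPB', hball'⟩ := frz_ball (q := q) (h := ⌊h₁ * J⌋₊) hF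
      (LineAt.hered _ _ _ _ A B hBA hLb) (by omega) (by omega)
    refine hball J hJb F B' ⟨hS1.1, hS1.2.1, hS1.2.2.1, ?_⟩ q (by omega) hqx hball'
    have h1 : Real.exp (-(τb * J)) * 5 ≤ Pe F.p B := by
      refine le_trans ?_ hPB
      refine le_trans ?_ (mul_le_mul_of_nonneg_left hS.2.2.2 (Real.exp_pos _).le)
      have h2 : (5 : ℝ) = Real.exp (Real.log 5) := by rw [Real.exp_log (by norm_num)]
      rw [← Real.exp_add]
      calc Real.exp (-(τb * J)) * 5 = Real.exp (-(τb * J)) * Real.exp (Real.log 5) := by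
            rw [← h2]
        _ = Real.exp (-(τb * J) + Real.log 5) := by rw [← Real.exp_add]
        _ ≤ _ := Real.exp_le_exp.2 (by
            have h3 := mul_le_mul_of_nonneg_right hττb hJr
            linarith)
    linarith
  have key := hmain J hJ1 F A (Fam.Stt.mono hττ₁ hS) i₀ w lam J' x1 z (by omega) (by omega)
    (hx1a.trans (mul_le_mul_of_nonneg_right hgγ hJr)) (Or.inr hnf) (hnf A (fun ω hω => hω) (by
      have h1 : Real.exp (-(τb / 2 * J)) ≤ 1 := Real.exp_le_one_iff.2 (by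
        have : 0 ≤ τb / 2 * (J : ℝ) := by positivity
        linarith)
      nlinarith))
    (by
      intro ω ω' _ _ _ _ hw
      refine haz.win ω ω' ?_
      have a1 := Prod.ext_iff.1 hw
      have a2 := Prod.ext_iff.1 a1.2
      exact Prod.ext a1.1 (Prod.ext a2.2 a2.1))
    (fun ω hω _ i => haz.bd ω hω i)
    (by
      intro B' hB' hPB'
      obtain ⟨c, hc⟩ := haz.vis
      obtain ⟨φ, hφ'⟩ := ptr_coarse F hrJ
      have hφ : ∀ ω, ptr F r ω = φ (Fam.pt F ω) := hφ'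
      have hl := isLaw_cond F.isLaw hPB'
      have hin : ∀ ω, 0 < cond F.p B' True ω → A ω := fun ω hω =>
        hB' ω (of_eq_true ((cond_pos_iff F.isLaw.nonneg B' True ω).1 hω).2)
      have hzz : ∀ ω ω', 0 < cond F.p B' True ω → 0 < cond F.p B' True ω' →
          Fam.pt F ω = Fam.pt F ω' → z ω = z ω' := by
        intro ω ω' hω hω' hpt
        rw [hc ω (hin ω hω), hc ω' (hin ω' hω'), hφ ω, hφ ω', hpt]
      refine le_trans (zp_vis (F.res B' True hl) (lam := lam) (i0 := i₀) (z := z) (c := 6) hzz ?_)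
        (le_max_right _ _)
      intro ω ω' hω hω' hpt i
      have h1 := haz.vel (hin ω hω) (hin ω' hω') (by rw [hφ ω, hφ ω']; exact congrArg φ hpt) i
      rw [← hzz ω ω' hω hω' hpt] at h1
      exact h1)
    P hP σ S (fun ω ω' h1 h2 _ _ h3 => hSw ω ω' h1 h2 h3)
    (fun B hB hPB => (hSv B hB hPB).trans (le_max_left _ _))
  exact key

/-- **Change of box**, for stable maximal families. -/
theorem chb_stt {m : ℕ} {a R h₁ : ℝ} (ha : 1 ≤ a) (hR : 0 < R) (hU : UBa m a R) (hh₁ : 0 < h₁)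
    (i0 : Fin m) {η : ℝ} (hη : 0 < η) (b' : ℕ) : ∃ τ > 0, ∃ J₁ : ℕ, ∀ J ≥ J₁, ∀ (F : Fam m J)
    (B : F.Ω → Prop), Fam.Stt F a R τ B → Lb F i0 ⌊h₁ * J⌋₊ B →
    ∀ (w0 x lam0 be J0 Ja ra r0 w' wz r : ℕ) (z0 za : F.Ω → Fin m → ℝ) (h0 : w0 + J0 ≤ J)
      (hwa : w0 + x + Ja ≤ J), r ≤ J → w0 + J0 + lam0 ≤ J → r ≤ w0 + r0 + lam0 →
    AzF F i0 r lam0 w0 B z0 → AzF F i0 r (lam0 + be) (w0 + x) B za →
    (∀ ω, B ω → ∀ i, |z0 ω i - za ω i| ≤ b' / 2 ^ lam0) →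
    r0 ≤ J0 → ra ≤ Ja → ra + x + be ≤ r0 → Ja + x + be ≤ J0 → w' ≤ Ja → wz ≤ J0 →
    w' + x ≤ wz →
    ∃ (B' : F.Ω → Prop)
      (φ : (Fin m → ℤ) × (ℕ × (F.zm w0 J0 h0 (Box.plkC lam0 i0) z0).ζ) →
        (Fin m → ℤ) × (ℕ × (F.zm (w0 + x) Ja hwa (Box.plkC (lam0 + be) i0) za).ζ))
      (ψ : ((Fin m → ℝ) × (Fin m → ℝ)) × (F.zm w0 J0 h0 (Box.plkC lam0 i0) z0).ζ × ℕ →
        ((Fin m → ℝ) × (Fin m → ℝ)) ×
          (F.zm (w0 + x) Ja hwa (Box.plkC (lam0 + be) i0) za).ζ × ℕ),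
      Sub B' B ∧ Real.exp (-(η * J)) * Pe F.p B ≤ Pe F.p B' ∧
      ∀ ω, B' ω →
        ptr (F.zm (w0 + x) Ja hwa (Box.plkC (lam0 + be) i0) za) ra ω =
          φ (ptr (F.zm w0 J0 h0 (Box.plkC lam0 i0) z0) r0 ω) ∧
        slam (F.zm (w0 + x) Ja hwa (Box.plkC (lam0 + be) i0) za) w' ω =
          ψ (slam (F.zm w0 J0 h0 (Box.plkC lam0 i0) z0) wz ω) := by
  obtain ⟨e, hee⟩ : ∃ e, e = η / 32 := ⟨_, rfl⟩
  have he : 0 < e := by rw [hee]; positivity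
  obtain ⟨τ₁, hτ₁, J₁, hsee⟩ := az_see (m := m) ha hR hU hh₁ i0 he
    (m * Real.log 25 + m * Real.log 15)
  obtain ⟨τ, hτ⟩ : ∃ τ, τ = min τ₁ (e / (6 * (1 + a))) := ⟨_, rfl⟩
  have hτ0 : 0 < τ := by rw [hτ]; exact lt_min hτ₁ (by positivity)
  have hττ₁ : τ ≤ τ₁ := by rw [hτ]; exact min_le_left _ _
  have hτe : (1 + a) * (6 * τ) ≤ e := by
    have h1 : τ ≤ e / (6 * (1 + a)) := by rw [hτ]; exact min_le_right _ _
    rw [le_div_iff₀ (by positivity)] at h1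
    linarith
  obtain ⟨J₂, hJ₂⟩ := exists_nat_gt ((8 * cB m b' + Real.log 2) / (16 * e))
  refine ⟨τ, hτ0, max J₁ J₂, fun J hJ F B hS hLb w0 x lam0 be J0 Ja ra r0 w' wz r z0 za h0 hwa
    hrJ h0J hr0' hz0 hza hzz hr0 hra hr hJa hw' hwz hw => ?_⟩
  have hJ1 : J₁ ≤ J := (le_max_left _ _).trans hJ
  have hJ2 : (8 * cB m b' + Real.log 2) / (16 * e) < J :=
    hJ₂.trans_le (by exact_mod_cast (le_max_right _ _).trans hJ)
  have hJr : (0 : ℝ) ≤ J := Nat.cast_nonneg J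
  rw [div_lt_iff₀ (by positivity)] at hJ2
  have hp := F.isLaw
  have hB0 : 0 < Pe F.p B := lt_of_lt_of_le (Real.exp_pos _) hS.2.2.2
  obtain ⟨hl, -, hTm⟩ := stt_res (τ' := e) ha hτ0.le hτe hS
  have hsee' := hsee J hJ1 F B (Fam.Stt.mono hττ₁ hS) hLb r w0 lam0 J0 z0 h0 h0J hrJ hz0
    r0 hr0 _ (F.blab (w0 + x) (Box.plkC (lam0 + be) i0) za) (by
      intro ω ω' _ _ hh
      have a1 := Prod.ext_iff.1 hh
      have a2 := Prod.ext_iff.1 a1.2
      have a0 : F.l ω = F.l ω' := a1.1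
      have aT : F.T1 (w0 + r0) ω = F.T1 (w0 + r0) ω' := a2.1
      have aZ : F.Z ω = F.Z ω' := a2.2
      obtain ⟨k, hk⟩ := Nat.exists_eq_add_of_le (show w0 + x ≤ w0 + r0 by omega)
      have a3 : F.T1 (w0 + x) ω = F.T1 (w0 + x) ω' := by
        rw [hk] at aT
        rw [Pool.KSAT.T1_div F (by omega : w0 + x + k ≤ J) ω,
          Pool.KSAT.T1_div F (by omega : w0 + x + k ≤ J) ω', aT]
      have a4 : za ω = za ω' := hza.win ω ω' (Prod.ext a0 (Prod.ext aZ a3))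
      exact (Box.blab_det F (C := Box.plkC (lam0 + be) i0) a0 a3 a4 aZ).1)
    (by
      intro B' hB' hPB'
      have hl' := isLaw_cond hp hPB'
      exact blab_vis F hza hr0' (by omega) (by omega) hl' (fun ω hω =>
        hB' ω (of_eq_true ((cond_pos_iff hp.nonneg B' True ω).1 hω).2)))
  have hwin : ∀ {w l : ℕ} {z : F.Ω → Fin m → ℝ}, AzF F i0 r l w B z →
      ∀ ω ω', B ω → B ω' → wnd F w ω = wnd F w ω' → z ω = z ω' := by
    intro w l z hz ω ω' _ _ hh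
    have a1 := Prod.ext_iff.1 hh
    have a2 := Prod.ext_iff.1 a1.2
    exact hz.win ω ω' (Prod.ext a1.1 (Prod.ext a2.2 a2.1))
  obtain ⟨B', φ, ψ, h1, h2, h3⟩ := chb_fns F (i0 := i0) (lam0 := lam0) (be := be) (z0 := z0)
    (za := za) h0 hwa hr0 hra hr hJa hw' hwz hw hzz (hwin hz0) (hwin hza) hB0 hl
    (by positivity : 0 ≤ e * (J : ℝ)) hTm hsee'
  refine ⟨B', φ, ψ, h1, le_trans ?_ h2, h3⟩
  refine mul_le_mul_of_nonneg_right ?_ hB0.le
  have e1 : Real.exp (-(8 * (e * J + e * J + cB m b'))) / 2 =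
      Real.exp (-(8 * (e * J + e * J + cB m b') + Real.log 2)) := by
    rw [neg_add, Real.exp_add, Real.exp_neg (Real.log 2), Real.exp_log (by norm_num)]
    rfl
  rw [e1]
  refine Real.exp_le_exp.2 ?_
  have e2 : η = 32 * e := by rw [hee]; ring
  rw [e2]
  linarith

end Pool.BOX
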